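import Pool.Agent.H53R3.RatDer

/-!
# Derivations and algebraic dependence

If `z` is algebraic over `ℂ(δ)` then the derivatives of `z` are those of a function of `δ`.
-/

namespace Pool.Agent.TH711

open Pool.Agent.H53R3 Polynomial

section

variable {K : Type*} [Field K] [Algebra ℂ K]

omit [Algebra ℂ K] in
lemma der_pow {D : K → K} (h : IsDer D) (x : K) (k : ℕ) : D (x ^ k) = k * x ^ (k - 1) * D x := by
  induction k with
  | zero => simp [h.one]
  | succ k ih =>
    rw [pow_succ, h.mul, ih]
    rcases Nat.eq_zero_or_pos k with rfl | hk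
    · simp
    · obtain ⟨j, rfl⟩ : ∃ j, k = j + 1 := ⟨k - 1, by omega⟩
      simp only [Nat.add_sub_cancel]
      push_cast
      ring

omit [Algebra ℂ K] in
lemma der_inv {D : K → K} (h : IsDer D) (x : K) : D x⁻¹ = -(x⁻¹) ^ 2 * D x := by
  by_cases hx : x = 0
  · subst hx; simp [h.zero]
  · have h1 : D (x * x⁻¹) = 0 := by rw [mul_inv_cancel₀ hx, h.one]
    rw [h.mul] at h1
    have h2 : x * D x⁻¹ = - (D x * x⁻¹) := by linear_combination h1
    have h3 : D x⁻¹ = x⁻¹ * (x * D x⁻¹) := by rw [inv_mul_cancel_left₀ hx]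
    rw [h3, h2]; ring

variable {ι : Type*} (D : ι → K → K) (hD : ∀ i, IsDer (D i))
  (hc : ∀ i (c : ℂ), D i (algebraMap ℂ K c) = 0) (δ : K)

include hD hc in
lemma exists_der_adjoin (f : K) (hf : f ∈ IntermediateField.adjoin ℂ {δ}) :
    ∃ f' ∈ IntermediateField.adjoin ℂ {δ}, ∀ i, D i f = f' * D i δ := by
  induction hf using IntermediateField.adjoin_induction with
  | mem x hx =>
    rw [Set.mem_singleton_iff.mp hx]
    exact ⟨1, one_mem _, fun i => by rw [one_mul]⟩
  | algebraMap c => exact ⟨0, zero_mem _, fun i => by rw [hc, zero_mul]⟩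
  | add x y _ _ hx hy =>
    obtain ⟨x', hx', h1⟩ := hx
    obtain ⟨y', hy', h2⟩ := hy
    exact ⟨x' + y', add_mem hx' hy', fun i => by rw [(hD i).add, h1, h2]; ring⟩
  | inv x hxm hx =>
    obtain ⟨x', hx', h1⟩ := hx
    refine ⟨-(x⁻¹) ^ 2 * x', mul_mem (neg_mem (pow_mem (inv_mem hxm) 2)) hx', fun i => ?_⟩
    rw [der_inv (hD i), h1]; ring
  | mul x y hxm hym hx hy =>
    obtain ⟨x', hx', h1⟩ := hx
    obtain ⟨y', hy', h2⟩ := hy
    exact ⟨x' * y + x * y', add_mem (mul_mem hx' hym) (mul_mem hxm hy'),
      fun i => by rw [(hD i).mul, h1, h2]; ring⟩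

include hD hc in
/-- The derivatives of an element which is algebraic over `ℂ(δ)`. -/
theorem exists_der_algebraic (x : K) (hx : IsAlgebraic (IntermediateField.adjoin ℂ {δ}) x) :
    ∃ x' : K, IsAlgebraic (IntermediateField.adjoin ℂ {δ}) x' ∧ ∀ i, D i x = x' * D i δ := by
  classical
  set F := IntermediateField.adjoin ℂ {δ} with hF
  have : CharZero K := charZero_of_injective_algebraMap (algebraMap ℂ K).injective
  have hint : IsIntegral F x := hx.isIntegral
  set P := minpoly F x with hP
  have hroot : aeval x P = 0 := minpoly.aeval F x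
  have hsep : aeval x (derivative P) ≠ 0 := by
    have h1 : P.Separable := (minpoly.irreducible hint).separable
    exact h1.aeval_derivative_ne_zero hroot
  have hch : ∀ f : F, ∃ f' : F, ∀ i, D i (f : K) = (f' : K) * D i δ := by
    intro f
    obtain ⟨f', h1, h2⟩ := exists_der_adjoin D hD hc δ (f : K) f.2
    exact ⟨⟨f', h1⟩, h2⟩
  choose c' hc' using hch
  have hxm : x ∈ algebraicClosure F K := mem_algebraicClosure_iff.mpr hx
  have halg : ∀ R : F[X], aeval x R ∈ algebraicClosure F K := by
    intro R
    rw [aeval_eq_sum_range]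
    refine sum_mem fun k _ => ?_
    rw [Algebra.smul_def]
    exact mul_mem (IntermediateField.algebraMap_mem _ _) (pow_mem hxm k)
  set Q : F[X] := ∑ k ∈ Finset.range (P.natDegree + 1), Polynomial.C (c' (P.coeff k)) * X ^ k
    with hQ
  refine ⟨-(aeval x Q / aeval x (derivative P)), ?_, fun i => ?_⟩
  · rw [← mem_algebraicClosure_iff]
    exact neg_mem (div_mem (halg Q) (halg _))
  · have h1 : D i (aeval x P) = aeval x Q * D i δ + aeval x (derivative P) * D i x := by
      have e1 : aeval x P = ∑ k ∈ Finset.range (P.natDegree + 1), (P.coeff k : K) * x ^ k := by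
        rw [aeval_eq_sum_range]
        exact Finset.sum_congr rfl fun k _ => Algebra.smul_def _ _
      have e2 : aeval x (derivative P) =
          ∑ k ∈ Finset.range (P.natDegree + 1), (P.coeff k : K) * (k * x ^ (k - 1)) := by
        rw [derivative_apply, sum_over_range P (fun n => by simp), map_sum]
        refine Finset.sum_congr rfl fun k _ => ?_
        rw [map_mul, aeval_C, map_pow, aeval_X, map_mul, map_natCast, mul_assoc]
        rfl
      have e3 : aeval x Q = ∑ k ∈ Finset.range (P.natDegree + 1), (c' (P.coeff k) : K) * x ^ k := by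
        rw [hQ, map_sum]
        refine Finset.sum_congr rfl fun k _ => ?_
        rw [map_mul, aeval_C, map_pow, aeval_X]
        rfl
      rw [e1, e2, e3, (hD i).sum, Finset.sum_mul, Finset.sum_mul, ← Finset.sum_add_distrib]
      refine Finset.sum_congr rfl fun k _ => ?_
      rw [(hD i).mul, hc', der_pow (hD i)]
      ring
    rw [hroot, (hD i).zero] at h1
    field_simp
    linear_combination -h1

end

end Pool.Agent.TH711
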