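import Pool.Agent.TH711.MM.AlgDer

/-!
# Rational functions with vanishing partial derivatives are constant
-/

namespace Pool.Agent.TH711

open Pool.Agent.H53R3 MvPolynomial

variable {m : ℕ}

lemma dv_poly (i : Fin m) (p : Pl m) :
    dv i (algebraMap (Pl m) (RF m) p) = algebraMap (Pl m) (RF m) (pderiv i p) := by
  have h := isDer_dv (m := m) i
  induction p using MvPolynomial.induction_on with
  | C c =>
    rw [pderiv_C, map_zero]
    have e1 : algebraMap (Pl m) (RF m) (C c) = algebraMap ℂ (RF m) c :=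
      (IsScalarTower.algebraMap_apply ℂ (Pl m) (RF m) c).symm
    rw [e1, dv_algebraMap]
  | add p q hp hq => rw [map_add, h.add, hp, hq, map_add, map_add]
  | mul_X p j hp =>
    have e1 : algebraMap (Pl m) (RF m) (X j) = xv j := rfl
    have e2 : dv i (xv j) = algebraMap (Pl m) (RF m) (pderiv i (X j)) := by
      rw [dv_xv]
      by_cases hj : j = i
      · subst hj; rw [if_pos rfl, pderiv_X_self, map_one]
      · rw [if_neg hj, pderiv_X_of_ne hj, map_zero]
    rw [map_mul, h.mul, hp, pderiv_mul, map_add, map_mul, map_mul, e1, e2]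

lemma totalDegree_pderiv_lt' (p : Pl m) (i : Fin m) (h : pderiv i p ≠ 0) :
    (pderiv i p).totalDegree < p.totalDegree := by
  classical
  have key : ∀ t ∈ (pderiv i p).support, (t.sum fun _ e => e) + 1 ≤ p.totalDegree := by
    intro t ht
    rw [mem_support_iff, coeff_pderiv] at ht
    have h1 : t + Finsupp.single i 1 ∈ p.support := by
      rw [mem_support_iff]
      exact left_ne_zero_of_mul ht
    have h2 := le_totalDegree h1
    rw [Finsupp.sum_add_index' (fun _ => rfl) (fun _ _ _ => rfl),
      Finsupp.sum_single_index rfl] at h2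
    exact h2
  obtain ⟨t, ht⟩ := Finset.nonempty_iff_ne_empty.mpr (fun h' => h (support_eq_empty.mp h'))
  have h0 := key t ht
  have h3 : (pderiv i p).totalDegree ≤ p.totalDegree - 1 := by
    refine Finset.sup_le fun t ht => ?_
    have := key t ht
    omega
  omega

lemma eq_C_of_pderiv_zero (p : Pl m) (h : ∀ i, pderiv i p = 0) : ∃ c : ℂ, p = C c := by
  classical
  refine ⟨coeff 0 p, ?_⟩
  ext t
  rw [coeff_C]
  split_ifs with h0
  · rw [← h0]
  · by_contra hne
    obtain ⟨i, hi⟩ : ∃ i, t i ≠ 0 := by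
      by_contra hcon
      push Not at hcon
      exact h0 (Finsupp.ext fun i => (hcon i).symm)
    have h1 := congrArg (coeff (t - Finsupp.single i 1)) (h i)
    rw [coeff_pderiv, coeff_zero] at h1
    have h2 : t - Finsupp.single i 1 + Finsupp.single i 1 = t := by
      refine tsub_add_cancel_of_le ?_
      rw [Finsupp.single_le_iff]
      omega
    rw [h2] at h1
    have h3 : (((t - Finsupp.single i 1 : Fin m →₀ ℕ) i : ℕ) : ℂ) + 1 ≠ 0 := Nat.cast_add_one_ne_zero _
    exact hne ((mul_eq_zero.mp h1).resolve_right h3)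

/-- A rational function all of whose partial derivatives vanish is constant. -/
theorem const_of_dv_zero (z : RF m) (h : ∀ i, dv i z = 0) : ∃ c : ℂ, z = algebraMap ℂ (RF m) c := by
  classical
  obtain ⟨a, b, hab, rfl⟩ := IsFractionRing.exists_reduced_fraction (A := Pl m) z
  have hb0 : (b : Pl m) ≠ 0 := nonZeroDivisors.ne_zero b.2
  have hinj : Function.Injective (algebraMap (Pl m) (RF m)) := IsFractionRing.injective _ _
  have hb1 : algebraMap (Pl m) (RF m) b ≠ 0 := fun h' => hb0 (hinj (by rw [h', map_zero]))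
  have hrel : ∀ i, pderiv i a * b = a * pderiv i (b : Pl m) := by
    intro i
    have hd := isDer_dv (m := m) i
    have h1 : IsLocalization.mk' (RF m) a b * algebraMap (Pl m) (RF m) b =
        algebraMap (Pl m) (RF m) a := IsLocalization.mk'_spec _ _ _
    have h2 := congrArg (dv i) h1
    rw [hd.mul, h i, zero_mul, zero_add, dv_poly, dv_poly] at h2
    apply hinj
    rw [map_mul, map_mul, ← h2, ← h1]
    ring
  have hbd : ∀ i, pderiv i (b : Pl m) = 0 := by
    intro i
    by_contra hne
    have h1 : (b : Pl m) ∣ a * pderiv i (b : Pl m) := ⟨pderiv i a, by rw [← hrel]; ring⟩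
    have h2 : (b : Pl m) ∣ pderiv i (b : Pl m) := hab.symm.dvd_of_dvd_mul_left h1
    have h3 := totalDegree_le_of_dvd_of_isDomain h2 hne
    have h4 := totalDegree_pderiv_lt' _ i hne
    omega
  obtain ⟨c, hc⟩ := eq_C_of_pderiv_zero _ hbd
  have had : ∀ i, pderiv i a = 0 := by
    intro i
    have h1 := hrel i
    rw [hbd i, mul_zero] at h1
    exact (mul_eq_zero.mp h1).resolve_right hb0
  obtain ⟨d, hd⟩ := eq_C_of_pderiv_zero _ had
  have e1 : ∀ c : ℂ, algebraMap (Pl m) (RF m) (C c) = algebraMap ℂ (RF m) c := fun c =>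
      (IsScalarTower.algebraMap_apply ℂ (Pl m) (RF m) c).symm
  refine ⟨d / c, ?_⟩
  rw [map_div₀, ← e1, ← e1, ← hd, ← hc, eq_div_iff hb1]
  exact IsLocalization.mk'_spec _ _ _

end Pool.Agent.TH711
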