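import Pool.Agent.H53R3.DetMain

/-!
# Affine spaces of matrices with constant determinant
-/

namespace Pool.Agent.TH711

open Pool.Agent.H53R3 Module Matrix

variable {n m : ℕ}

lemma isNilpotent_of_det_const {M X : Mt n} (hM : M.det ≠ 0)
    (h : ∀ t : ℂ, (M + t • X).det = M.det) : IsNilpotent (M.adjugate * X) := by
  have hU : IsUnit M.det := isUnit_iff_ne_zero.mpr hM
  have hch : (M⁻¹ * X).charpoly = Polynomial.X ^ n := by
    refine Polynomial.eq_of_infinite_eval_eq _ _ ?_
    have hinf : ({0}ᶜ : Set ℂ).Infinite := Set.Finite.infinite_compl (Set.finite_singleton 0)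
    refine hinf.mono ?_
    intro t ht
    have ht0 : t ≠ 0 := ht
    show Polynomial.eval t (M⁻¹ * X).charpoly = Polynomial.eval t (Polynomial.X ^ n)
    rw [Matrix.eval_charpoly, Polynomial.eval_pow, Polynomial.eval_X]
    have h1 : (Matrix.scalar (Fin n)) t - M⁻¹ * X = t • (M⁻¹ * (M + (-t⁻¹) • X)) := by
      rw [mul_add, Matrix.nonsing_inv_mul M hU, smul_add, Matrix.mul_smul, smul_smul, mul_neg,
        mul_inv_cancel₀ ht0, neg_one_smul, ← sub_eq_add_neg, Matrix.scalar_apply,
        ← Matrix.smul_one_eq_diagonal]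
    rw [h1, Matrix.det_smul, Matrix.det_mul, h, Fintype.card_fin, Matrix.det_nonsing_inv,
      Ring.inverse_mul_cancel _ hU, mul_one]
  have h2 : (M⁻¹ * X) ^ n = 0 := by
    have := Matrix.aeval_self_charpoly (M⁻¹ * X)
    rw [hch] at this
    simpa using this
  have h3 : M.adjugate * X = M.det • (M⁻¹ * X) := by
    rw [← Matrix.smul_mul, Matrix.inv_def, smul_smul, Ring.mul_inverse_cancel _ hU, one_smul]
  refine ⟨n, ?_⟩
  rw [h3, smul_pow, h2, smul_zero]

lemma trace_cube_of_isNilpotent {X : Mt n} (h : IsNilpotent X) : (X * X * X).trace = 0 := by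
  have h1 : IsNilpotent (X * X * X) := by
    have h2 : Commute X (X * X) := by
      show X * (X * X) = X * X * X
      rw [Matrix.mul_assoc]
    rw [Matrix.mul_assoc]
    exact h2.isNilpotent_mul_right h
  exact (Matrix.isNilpotent_trace_of_isNilpotent h1).eq_zero

lemma polar_of_cube (W : Submodule ℂ (Mt n)) (h : ∀ X ∈ W, (X * X * X).trace = 0) (A B D : Mt n)
    (hA : A ∈ W) (hB : B ∈ W) (hD : D ∈ W) : Phi 1 1 A B D = 0 := by
  have h1 := h _ (W.add_mem (W.add_mem hA hB) hD)
  have h2 := h _ (W.add_mem hA hB)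
  have h3 := h _ (W.add_mem hA hD)
  have h4 := h _ (W.add_mem hB hD)
  have h5 := h _ hA
  have h6 := h _ hB
  have h7 := h _ hD
  simp only [add_mul, mul_add, Matrix.trace_add] at h1 h2 h3 h4
  have c1 : (B * D * A).trace = (A * B * D).trace := by
    rw [Matrix.trace_mul_comm, ← Matrix.mul_assoc]
  have c2 : (D * A * B).trace = (A * B * D).trace := by
    rw [Matrix.trace_mul_comm, ← Matrix.mul_assoc, ← c1, Matrix.mul_assoc,
      Matrix.trace_mul_comm, Matrix.mul_assoc]
  have c3 : (A * D * B).trace = (B * A * D).trace := by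
    rw [Matrix.trace_mul_comm, ← Matrix.mul_assoc]
  have c4 : (D * B * A).trace = (B * A * D).trace := by
    rw [Matrix.mul_assoc, Matrix.trace_mul_comm]
  unfold Phi
  linear_combination (1 / 3) * (h1 - h2 - h3 - h4 + h5 + h6 + h7 - 1 * c1 - 1 * c2 - 1 * c3 - 1 * c4)

/-- If the determinant is constant then the cubic form vanishes. -/
lemma phi_zero_of_det_const (A₀ : Mt n) (b : Fin m → Mt n) (hdet : (genP A₀ b).det ≠ 0) (c : ℂ)
    (hc : (genK A₀ b).det = algebraMap ℂ (RF m) c) :
    A₀.det ≠ 0 ∧ ∀ A ∈ Submodule.span ℂ (Set.range fun i => A₀.adjugate * b i),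
      ∀ B ∈ Submodule.span ℂ (Set.range fun i => A₀.adjugate * b i),
      ∀ D ∈ Submodule.span ℂ (Set.range fun i => A₀.adjugate * b i), Phi 1 1 A B D = 0 := by
  have hinj : Function.Injective (algebraMap (Pl m) (RF m)) := IsFractionRing.injective _ _
  have h1 : (genP A₀ b).det = MvPolynomial.C c := by
    apply hinj
    rw [← det_genK, hc]
    exact IsScalarTower.algebraMap_apply ℂ (Pl m) (RF m) c
  have hc0 : c ≠ 0 := by
    rintro rfl
    exact hdet (by rw [h1, map_zero])
  have h2 : ∀ a : Fin m → ℂ, (A₀ + ∑ i, a i • b i).det = c := by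
    intro a
    rw [← eval_genP]
    have := congrArg (MvPolynomial.eval a) h1
    rw [RingHom.map_det, RingHom.mapMatrix_apply, MvPolynomial.eval_C] at this
    exact this
  have h3 : A₀.det = c := by
    have := h2 0
    simpa using this
  have h4 : A₀.det ≠ 0 := by rw [h3]; exact hc0
  refine ⟨h4, fun A hA B hB D hD => polar_of_cube _ ?_ A B D hA hB hD⟩
  intro X hX
  obtain ⟨a, ha⟩ : ∃ a : Fin m → ℂ, X = A₀.adjugate * ∑ i, a i • b i := by
    obtain ⟨a, ha⟩ := (Submodule.mem_span_range_iff_exists_fun ℂ).mp hX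
    refine ⟨a, ?_⟩
    rw [← ha, Matrix.mul_sum]
    exact Finset.sum_congr rfl fun i _ => by rw [Matrix.mul_smul]
  rw [ha]
  apply trace_cube_of_isNilpotent
  apply isNilpotent_of_det_const h4
  intro t
  rw [h3, Finset.smul_sum]
  have := h2 (fun i => t * a i)
  simp only [mul_smul] at this
  exact this

end Pool.Agent.TH711
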