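import Pool.Agent.TH711.MM.DetGen

/-!
# Determinants on large affine spaces of matrices
-/

namespace Pool.Agent.TH711

open Pool.Agent.H53R3 Module Filter Pool.Agent.H515R2.MMR

variable {n m : ℕ}

/-- Matrices of trace zero. -/
noncomputable def trZero (n : ℕ) : Submodule ℂ (Mt n) :=
  LinearMap.ker (Matrix.traceLinearMap (Fin n) ℂ ℂ)

lemma mem_trZero {A : Mt n} : A ∈ trZero n ↔ A.trace = 0 := by
  rw [trZero, LinearMap.mem_ker, Matrix.traceLinearMap_apply]

lemma finrank_trZero (V : Submodule ℂ (Mt n)) :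
    finrank ℂ V ≤ finrank ℂ (V ⊓ trZero n : Submodule ℂ (Mt n)) + 1 := by
  let L : V →ₗ[ℂ] ℂ := (Matrix.traceLinearMap (Fin n) ℂ ℂ).comp V.subtype
  have h1 := L.finrank_range_add_finrank_ker
  have h2 : finrank ℂ (LinearMap.range L) ≤ 1 := by
    have := Submodule.finrank_le (LinearMap.range L)
    simpa using this
  have h3 : finrank ℂ (LinearMap.ker L) ≤ finrank ℂ (V ⊓ trZero n : Submodule ℂ (Mt n)) := by
    let J : LinearMap.ker L →ₗ[ℂ] (V ⊓ trZero n : Submodule ℂ (Mt n)) :=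
      { toFun := fun A => ⟨A.1.1, A.1.2, LinearMap.mem_ker.mp A.2⟩
        map_add' := fun A B => rfl
        map_smul' := fun c A => rfl }
    refine LinearMap.finrank_le_finrank_of_injective (f := J) ?_
    intro A B hAB
    have h : (J A : Mt n) = (J B : Mt n) := congrArg Subtype.val hAB
    exact Subtype.ext (Subtype.ext h)
  omega

/-- A decomposition into symmetrised products gives a bound for the border rank. -/
lemma bRank_of_F3 {L : ℕ} (V : Submodule ℂ (Mt n)) (y p q : Fin L → (Mt n →ₗ[ℂ] ℂ))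
    (h : ∀ A ∈ V, ∀ B ∈ V, ∀ D ∈ V, Phi 1 1 A B D = ∑ k, F3 (y k) (p k) (q k) A B D) :
    BRank 1 1 V V V (6 * L) := by
  classical
  let M0 : ℂ →ₗ[ℂ] Polynomial ℂ := Polynomial.monomial 0
  let e : Fin 6 × Fin L ≃ Fin (6 * L) := finProdFinEquiv
  refine ⟨0, fun t => M0.comp (![y (e.symm t).2, y (e.symm t).2, p (e.symm t).2, q (e.symm t).2,
      p (e.symm t).2, q (e.symm t).2] (e.symm t).1),
    fun t => M0.comp (![p (e.symm t).2, q (e.symm t).2, y (e.symm t).2, y (e.symm t).2,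
      q (e.symm t).2, p (e.symm t).2] (e.symm t).1),
    fun t => M0.comp (![q (e.symm t).2, p (e.symm t).2, q (e.symm t).2, p (e.symm t).2,
      y (e.symm t).2, y (e.symm t).2] (e.symm t).1), fun A hA B hB D hD => ⟨0, ?_⟩⟩
  rw [h A hA B hB D hD, pow_zero, one_mul, mul_zero, add_zero, ← Equiv.sum_comp e,
    Fintype.sum_prod_type]
  simp only [Equiv.symm_apply_apply, LinearMap.comp_apply]
  have hM : ∀ c : ℂ, M0 c = Polynomial.C c := fun c => rfl
  simp only [hM, ← Polynomial.C_mul, ← map_sum]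
  congr 1
  rw [Fin.sum_univ_six, ← Finset.sum_add_distrib, ← Finset.sum_add_distrib,
    ← Finset.sum_add_distrib, ← Finset.sum_add_distrib, ← Finset.sum_add_distrib]
  refine Finset.sum_congr rfl fun k _ => ?_
  simp [F3]
  ring

variable (A₀ : Mt n) (b : Fin m → Mt n)

/-- **Functions of the determinant.** -/
theorem detlike_bound {q L : ℕ} (hq : 1 ≤ q) (hb : LinearIndependent ℂ b)
    (hdet : (genP A₀ b).det ≠ 0) (hdim : n ^ 2 + (3 * q + 2) * n + 2 < 2 * m)
    (z : RF m) (hz : IsAlgebraic (IntermediateField.adjoin ℂ {(genK A₀ b).det}) z)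
    (hzc : ∀ c : ℂ, z ≠ algebraMap ℂ (RF m) c)
    (hL : SLPComputes (xv (m := m)) L {z}) : (q : ℝ) ^ omega ≤ 6 * L := by
  obtain ⟨a, y, p, q', -, hβ, c₁, c₂, H⟩ := gen_decomposition A₀ b hb hdet z hz hzc hL
  set V := Submodule.span ℂ (Set.range fun i => (A₀ + ∑ i, a i • b i).adjugate * b i) with hV
  have hfr : finrank ℂ V = m := by
    rw [hV, finrank_span_eq_card hβ, Fintype.card_fin]
  have h1 := finrank_trZero V
  rw [hfr] at h1
  have hB : BRank 1 1 (V ⊓ trZero n) (V ⊓ trZero n) (V ⊓ trZero n) (6 * L) := by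
    refine bRank_of_F3 _ y p q' fun A hA B hB D hD => ?_
    rw [← H A hA.1 B hB.1 D hD.1]
    have hA0 := mem_trZero.mp hA.2
    have hB0 := mem_trZero.mp hB.2
    have hD0 := mem_trZero.mp hD.2
    simp only [gt, Phi, hA0, hB0, hD0]
    ring
  have h2 := sym_bound hq _ (by omega) hB
  push_cast at h2
  exact h2

/-- **The determinant.** -/
theorem det_bound {q L : ℕ} (hq : 1 ≤ q) (hb : LinearIndependent ℂ b)
    (hdet : (genP A₀ b).det ≠ 0) (hdim : n ^ 2 + (3 * q + 2) * n + 2 < 2 * m)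
    (hL : SLPComputes (xv (m := m)) L {(genK A₀ b).det}) : (q : ℝ) ^ omega ≤ 6 * L := by
  obtain ⟨β, y, p, q', hβ, H⟩ := det_decomposition A₀ b hb hdet hL
  set V := Submodule.span ℂ (Set.range β) with hV
  have hfr : finrank ℂ V = m := by
    rw [hV, finrank_span_eq_card hβ, Fintype.card_fin]
  have h1 := finrank_trZero V
  rw [hfr] at h1
  have hB : BRank 1 1 (V ⊓ trZero n) (V ⊓ trZero n) (V ⊓ trZero n) (6 * L) := by
    refine bRank_of_F3 _ y p q' fun A hA B hB D hD => ?_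
    rw [← H A hA.1 B hB.1 D hD.1]
    have hA0 := mem_trZero.mp hA.2
    have hB0 := mem_trZero.mp hB.2
    have hD0 := mem_trZero.mp hD.2
    simp only [tau, Phi, hA0, hB0, hD0]
    ring
  have h2 := sym_bound hq _ (by omega) hB
  push_cast at h2
  exact h2

/-- The determinant is not constant. -/
theorem det_nonconstant {q : ℕ} (hq : 1 ≤ q) (hb : LinearIndependent ℂ b)
    (hdet : (genP A₀ b).det ≠ 0) (hdim : n ^ 2 + (3 * q + 2) * n + 2 < 2 * m) (c : ℂ) :
    (genK A₀ b).det ≠ algebraMap ℂ (RF m) c := by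
  intro h
  have h1 : SLPComputes (xv (m := m)) 0 {(genK A₀ b).det} := by
    refine ⟨fun _ => 0, fun l hl => absurd hl (Nat.not_lt_zero l), ?_⟩
    rintro f rfl
    rw [h, Algebra.algebraMap_eq_smul_one]
    exact Submodule.smul_mem _ _ (Submodule.subset_span (Or.inl (Or.inl rfl)))
  have h2 := det_bound A₀ b hq hb hdet hdim h1
  have h3 : (0 : ℝ) < (q : ℝ) ^ omega := Real.rpow_pos_of_pos (by exact_mod_cast hq) _
  simp at h2
  linarith

/-- A function of the determinant which is computed by a program. -/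
def ComputesFunctionOfDet (L : ℕ) : Prop :=
  ∃ z : RF m, IsAlgebraic (IntermediateField.adjoin ℂ {(genK A₀ b).det}) z ∧
    (∀ c : ℂ, z ≠ algebraMap ℂ (RF m) c) ∧ SLPComputes (xv (m := m)) L {z}

/-- Uniform asymptotic lower bound. -/
theorem det_bound_asymp {ε : ℝ} (hε : 0 < ε) : ∃ c : ℝ, 0 < c ∧ ∃ n₀ : ℕ, ∀ n : ℕ, n₀ ≤ n →
    ∀ (m : ℕ) (A₀ : Mt n) (b : Fin m → Mt n), LinearIndependent ℂ b → (genP A₀ b).det ≠ 0 →
    (1 / 2 + ε) * (n : ℝ) ^ 2 ≤ m → ∀ L : ℕ, ComputesFunctionOfDet A₀ b L →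
    c * (n : ℝ) ^ omega ≤ L := by
  obtain ⟨n₂, hn₂⟩ := exists_nat_gt (8 / ε)
  refine ⟨(ε / 3) ^ omega / 6, by
    have := Real.rpow_pos_of_pos (show 0 < ε / 3 by positivity) omega
    positivity, n₂ + 1, ?_⟩
  intro n hn m A₀ b hb hdet hm L hL
  obtain ⟨z, hz, hzc, hL⟩ := hL
  have h2' : (n₂ : ℝ) + 1 ≤ n := by exact_mod_cast hn
  have hn8 : 8 / ε < n := by linarith
  have hεn : 8 < ε * n := by
    rw [div_lt_iff₀ hε] at hn8
    linarith
  have hn1 : (1 : ℝ) ≤ n := by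
    have : (0 : ℝ) ≤ n₂ := Nat.cast_nonneg _
    linarith
  have hn0 : (0 : ℝ) < n := by linarith
  set q : ℕ := ⌈ε * n / 3⌉₊ with hq
  have hq1 : 1 ≤ q := Nat.one_le_iff_ne_zero.mpr (Nat.ceil_pos.mpr (by positivity)).ne'
  have hqle : (q : ℝ) < ε * n / 3 + 1 := Nat.ceil_lt_add_one (by positivity)
  have hqge : ε * n / 3 ≤ q := Nat.le_ceil _
  have hdim : n ^ 2 + (3 * q + 2) * n + 2 < 2 * m := by
    have : ((n ^ 2 + (3 * q + 2) * n + 2 : ℕ) : ℝ) < ((2 * m : ℕ) : ℝ) := by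
      push_cast
      have h3 : (3 * (q : ℝ) + 2) * n < (ε * n + 5) * n := by
        apply mul_lt_mul_of_pos_right _ hn0
        linarith
      nlinarith
    exact_mod_cast this
  have hb' := detlike_bound A₀ b hq1 hb hdet hdim z hz hzc hL
  have h4 : (ε / 3) ^ omega * (n : ℝ) ^ omega ≤ (q : ℝ) ^ omega := by
    rw [← Real.mul_rpow (by positivity) (by positivity)]
    refine Real.rpow_le_rpow (by positivity) ?_ omega_nonneg
    linarith
  linarith

/-- Cheap functions of the determinant on one family of spaces bound `ω`. -/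
theorem omega_le_of_det {ε τ C : ℝ} (hε : 0 < ε)
    (H : ∀ N : ℕ, ∃ n : ℕ, N ≤ n ∧ ∃ (m : ℕ) (A₀ : Mt n) (b : Fin m → Mt n) (L : ℕ),
      LinearIndependent ℂ b ∧ (genP A₀ b).det ≠ 0 ∧ (1 / 2 + ε) * (n : ℝ) ^ 2 ≤ m ∧
      ComputesFunctionOfDet A₀ b L ∧ (L : ℝ) ≤ C * (n : ℝ) ^ τ) : omega ≤ τ := by
  obtain ⟨c, hc, n₀, hlow⟩ := det_bound_asymp hε
  by_contra hcon
  push Not at hcon
  have t := (tendsto_rpow_atTop (y := omega - τ) (by linarith)).comp
    (tendsto_natCast_atTop_atTop (R := ℝ))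
  obtain ⟨N, hN⟩ := eventually_atTop.mp (t.eventually (eventually_gt_atTop (C / c)))
  obtain ⟨n, hn, m, A₀, b, L, hb, hdet, hm, hL, hLe⟩ := H (max (max N n₀) 1)
  have hnN : N ≤ n := (le_max_left _ _).trans ((le_max_left _ _).trans hn)
  have hnn₀ : n₀ ≤ n := (le_max_right _ _).trans ((le_max_left _ _).trans hn)
  have hn1 : 1 ≤ n := (le_max_right _ _).trans hn
  have hn0 : (0 : ℝ) < n := by exact_mod_cast hn1
  have h1 := hN n hnN
  simp only [Function.comp] at h1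
  have h2 := (hlow n hnn₀ m A₀ b hb hdet hm L hL).trans hLe
  have h3 : (n : ℝ) ^ omega = (n : ℝ) ^ (omega - τ) * (n : ℝ) ^ τ := by
    rw [← Real.rpow_add hn0]; congr 1; ring
  have h4 : 0 < (n : ℝ) ^ τ := Real.rpow_pos_of_pos hn0 _
  rw [h3, ← mul_assoc] at h2
  have h5 : c * (n : ℝ) ^ (omega - τ) ≤ C := le_of_mul_le_mul_right h2 h4
  rw [div_lt_iff₀ hc] at h1
  linarith

end Pool.Agent.TH711
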