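import Pool.Agent.TH711.MM.Const
import Pool.Agent.H53R3.DetMain

/-!
# From a program for a function of the determinant to the rank of a cubic form
-/

namespace Pool.Agent.TH711

open Pool.Agent.H53R3 MvPolynomial Module Pool.Agent.H515R2.MMR

section gt

variable {R S : Type*} [CommRing R] [CommRing S] {n : ℕ}

/-- A cubic form, polarised, which on matrices of trace zero is `tr(ABD) + tr(BAD)`. -/
def gt (c₀ c₁ c₂ : R) (A B D : Matrix (Fin n) (Fin n) R) : R :=
  c₀ * ((A * B * D).trace + (B * A * D).trace) + c₁ * (A.trace * B.trace * D.trace) +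
    c₂ * ((A * B).trace * D.trace + (A * D).trace * B.trace + (B * D).trace * A.trace)

lemma gt_map (f : R →+* S) (c₀ c₁ c₂ : R) (A B D : Matrix (Fin n) (Fin n) R) :
    f (gt c₀ c₁ c₂ A B D) = gt (f c₀) (f c₁) (f c₂) (A.map f) (B.map f) (D.map f) := by
  have ht : ∀ T : Matrix (Fin n) (Fin n) R, (T.map f).trace = f T.trace := by
    intro T; simp [Matrix.trace]
  unfold gt
  simp only [← Matrix.map_mul, ht, map_add, map_mul]

lemma gt_add1 (c₀ c₁ c₂ : R) (A A' B D : Matrix (Fin n) (Fin n) R) :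
    gt c₀ c₁ c₂ (A + A') B D = gt c₀ c₁ c₂ A B D + gt c₀ c₁ c₂ A' B D := by
  unfold gt; simp only [add_mul, mul_add, Matrix.trace_add]; ring

lemma gt_add2 (c₀ c₁ c₂ : R) (A B B' D : Matrix (Fin n) (Fin n) R) :
    gt c₀ c₁ c₂ A (B + B') D = gt c₀ c₁ c₂ A B D + gt c₀ c₁ c₂ A B' D := by
  unfold gt; simp only [add_mul, mul_add, Matrix.trace_add]; ring

lemma gt_add3 (c₀ c₁ c₂ : R) (A B D D' : Matrix (Fin n) (Fin n) R) :
    gt c₀ c₁ c₂ A B (D + D') = gt c₀ c₁ c₂ A B D + gt c₀ c₁ c₂ A B D' := by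
  unfold gt; simp only [mul_add, Matrix.trace_add]; ring

lemma gt_smul1 (c₀ c₁ c₂ : R) (c : R) (A B D : Matrix (Fin n) (Fin n) R) :
    gt c₀ c₁ c₂ (c • A) B D = c * gt c₀ c₁ c₂ A B D := by
  unfold gt; simp only [smul_mul_assoc, mul_smul_comm, Matrix.trace_smul, smul_eq_mul]; ring

lemma gt_smul2 (c₀ c₁ c₂ : R) (c : R) (A B D : Matrix (Fin n) (Fin n) R) :
    gt c₀ c₁ c₂ A (c • B) D = c * gt c₀ c₁ c₂ A B D := by
  unfold gt; simp only [smul_mul_assoc, mul_smul_comm, Matrix.trace_smul, smul_eq_mul]; ring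

lemma gt_smul3 (c₀ c₁ c₂ : R) (c : R) (A B D : Matrix (Fin n) (Fin n) R) :
    gt c₀ c₁ c₂ A B (c • D) = c * gt c₀ c₁ c₂ A B D := by
  unfold gt; simp only [mul_smul_comm, Matrix.trace_smul, smul_eq_mul]; ring

lemma gt_scal (a c₀ c₁ c₂ : R) (A B D : Matrix (Fin n) (Fin n) R) :
    gt (a * c₀) (a * c₁) (a * c₂) A B D = a * gt c₀ c₁ c₂ A B D := by
  unfold gt; ring

end gt

/-- Third derivatives of an element algebraic over `ℂ(δ)`. -/
lemma third_of_algebraic {m : ℕ} (δ z : RF m)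
    (hz : IsAlgebraic (IntermediateField.adjoin ℂ {δ}) z)
    (hzc : ∀ c : ℂ, z ≠ algebraMap ℂ (RF m) c) :
    ∃ w₁ w₂ w₃ : RF m, w₁ ≠ 0 ∧ (∃ i, dv i δ ≠ 0) ∧ ∀ i j s : Fin m, dv i (dv j (dv s z)) =
      w₁ * dv i (dv j (dv s δ)) + w₂ * (dv i (dv j δ) * dv s δ + dv i (dv s δ) * dv j δ +
        dv j (dv s δ) * dv i δ) + w₃ * (dv i δ * dv j δ * dv s δ) := by
  obtain ⟨w₁, h1, e1⟩ := exists_der_algebraic (dv (m := m)) isDer_dv dv_algebraMap δ z hz
  obtain ⟨w₂, h2, e2⟩ := exists_der_algebraic (dv (m := m)) isDer_dv dv_algebraMap δ w₁ h1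
  obtain ⟨w₃, h3, e3⟩ := exists_der_algebraic (dv (m := m)) isDer_dv dv_algebraMap δ w₂ h2
  have hne : ∃ i, dv i z ≠ 0 := by
    by_contra hcon
    push Not at hcon
    obtain ⟨c, hc⟩ := const_of_dv_zero z hcon
    exact hzc c hc
  obtain ⟨i₀, hi₀⟩ := hne
  rw [e1] at hi₀
  refine ⟨w₁, w₂, w₃, left_ne_zero_of_mul hi₀, ⟨i₀, right_ne_zero_of_mul hi₀⟩, ?_⟩
  intro i j s
  have hi := isDer_dv (m := m) i
  have hj := isDer_dv (m := m) j
  rw [e1, hj.mul, e2, hi.add, hi.mul, hi.mul, hi.mul, e3, e2]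
  ring

/-- Second derivative of the determinant of a matrix whose entries are affine. -/
theorem det_second {K : Type*} [Field K] {n : ℕ} {D₁ D₂ : K → K} (h₁ : IsDer D₁) (h₂ : IsDer D₂)
    (A : Matrix (Fin n) (Fin n) K) (hA : IsUnit A.det) (h12 : dMat D₁ (dMat D₂ A) = 0) :
    D₁ (D₂ A.det) = A.det * ((A⁻¹ * dMat D₁ A).trace * (A⁻¹ * dMat D₂ A).trace -
      (A⁻¹ * dMat D₁ A * (A⁻¹ * dMat D₂ A)).trace) := by
  rw [h₂.det A hA, h₁.mul, h₁.det A hA, tr1 h₁ A _ hA h12]
  ring

variable {n m : ℕ} (A₀ : Mt n) (b : Fin m → Mt n)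

/-- **From a program for a function of the determinant to the rank of a cubic form.** -/
theorem gen_decomposition (hb : LinearIndependent ℂ b) (hdet : (genP A₀ b).det ≠ 0) {L : ℕ}
    (z : RF m) (hz : IsAlgebraic (IntermediateField.adjoin ℂ {(genK A₀ b).det}) z)
    (hzc : ∀ c : ℂ, z ≠ algebraMap ℂ (RF m) c)
    (hL : SLPComputes (xv (m := m)) L {z}) :
    ∃ (a : Fin m → ℂ) (y p q : Fin L → (Mt n →ₗ[ℂ] ℂ)), (A₀ + ∑ i, a i • b i).det ≠ 0 ∧
      LinearIndependent ℂ (fun i => (A₀ + ∑ i, a i • b i).adjugate * b i) ∧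
      ∃ c₁ c₂ : ℂ,
      ∀ A ∈ Submodule.span ℂ (Set.range fun i => (A₀ + ∑ i, a i • b i).adjugate * b i),
      ∀ B ∈ Submodule.span ℂ (Set.range fun i => (A₀ + ∑ i, a i • b i).adjugate * b i),
      ∀ D ∈ Submodule.span ℂ (Set.range fun i => (A₀ + ∑ i, a i • b i).adjugate * b i),
      gt 1 c₁ c₂ A B D = ∑ k, F3 (y k) (p k) (q k) A B D := by
  classical
  obtain ⟨g, hg, hf⟩ := hL
  obtain ⟨p, q, hpq⟩ := slp_derivatives dv isDer_dv dv_algebraMap xv dv_dv_xv L g hg
  obtain ⟨y, hy⟩ := Q3_repr p q (hpq L le_rfl _ (hf _ rfl)).2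
  obtain ⟨w₁, w₂, w₃, hw₁, -, hthird⟩ := third_of_algebraic _ z hz hzc
  set δ : Pl m := (genP A₀ b).det with hδ
  have hdK : (genK A₀ b).det = algebraMap (Pl m) (RF m) δ := det_genK A₀ b
  have hinj : Function.Injective (algebraMap (Pl m) (RF m)) := IsFractionRing.injective _ _
  have hdK0 : (genK A₀ b).det ≠ 0 := by
    rw [hdK]
    exact fun h => hdet (hinj (by rw [h, map_zero]))
  have hU : IsUnit (genK A₀ b).det := isUnit_iff_ne_zero.mpr hdK0
  set Δ : RF m := (genK A₀ b).det with hΔ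
  -- third derivatives
  obtain ⟨e₀, e₁, e₂, he₀, hT⟩ : ∃ e₀ e₁ e₂ : RF m, e₀ ≠ 0 ∧ ∀ i j s,
      gt e₀ e₁ e₂ ((genK A₀ b)⁻¹ * (b i).map (algebraMap ℂ (RF m)))
      ((genK A₀ b)⁻¹ * (b j).map (algebraMap ℂ (RF m)))
      ((genK A₀ b)⁻¹ * (b s).map (algebraMap ℂ (RF m))) =
      ∑ k ∈ Finset.range L, S3 (y k) (p k) (q k) i j s := by
    refine ⟨w₁ * Δ, w₁ * Δ + 3 * w₂ * Δ ^ 2 + w₃ * Δ ^ 3, -(w₁ * Δ) - w₂ * Δ ^ 2,
      mul_ne_zero hw₁ hdK0, ?_⟩
    intro i j s
    have h1 := congrFun (congrFun (congrFun hy i) j) s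
    have h2 := det_third (isDer_dv i) (isDer_dv j) (isDer_dv s) (genK A₀ b) hU
      (dMat_dMat_genK A₀ b i j) (dMat_dMat_genK A₀ b i s) (dMat_dMat_genK A₀ b j s)
    have hij := det_second (isDer_dv i) (isDer_dv j) (genK A₀ b) hU (dMat_dMat_genK A₀ b i j)
    have his := det_second (isDer_dv i) (isDer_dv s) (genK A₀ b) hU (dMat_dMat_genK A₀ b i s)
    have hjs := det_second (isDer_dv j) (isDer_dv s) (genK A₀ b) hU (dMat_dMat_genK A₀ b j s)
    have hi := (isDer_dv i).det (genK A₀ b) hU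
    have hj := (isDer_dv j).det (genK A₀ b) hU
    have hs := (isDer_dv s).det (genK A₀ b) hU
    simp only [Ts] at h1
    rw [hthird, h2, hij, his, hjs, hi, hj, hs, dMat_genK, dMat_genK, dMat_genK] at h1
    rw [show (∑ k ∈ Finset.range L, S3 (y k) (p k) (q k) i j s) =
      (∑ k ∈ Finset.range L, S3 (y k) (p k) (q k)) i j s by simp only [Finset.sum_apply], ← h1]
    simp only [gt, tau, ← hΔ]
    ring
  -- adjugates
  have hadj : ∀ i, (genK A₀ b).det • ((genK A₀ b)⁻¹ * (b i).map (algebraMap ℂ (RF m))) =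
      (genK A₀ b).adjugate * (b i).map (algebraMap ℂ (RF m)) := by
    intro i
    rw [← Matrix.smul_mul, Matrix.inv_def, smul_smul, Ring.mul_inverse_cancel _ hU, one_smul]
  have hbm : ∀ i, (b i).map (algebraMap ℂ (RF m)) =
      ((b i).map C).map (algebraMap (Pl m) (RF m)) := by
    intro i
    refine Matrix.ext fun k l => ?_
    simp only [Matrix.map_apply]
    exact IsScalarTower.algebraMap_apply ℂ (Pl m) (RF m) _
  -- common denominator
  obtain ⟨d, hd0, hd⟩ := exists_denominator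
    ({e₀, e₁, e₂} ∪ (((Finset.range L) ×ˢ (Finset.univ : Finset (Fin m))).image (fun z => y z.1 z.2) ∪
    (((Finset.range L) ×ˢ (Finset.univ : Finset (Fin m))).image (fun z => p z.1 z.2) ∪
    ((Finset.range L) ×ˢ (Finset.univ : Finset (Fin m))).image (fun z => q z.1 z.2))))
  obtain ⟨E₀, hE₀⟩ := hd e₀ (by simp)
  obtain ⟨E₁, hE₁⟩ := hd e₁ (by simp)
  obtain ⟨E₂, hE₂⟩ := hd e₂ (by simp)
  have hY : ∀ (k : Fin L) i, ∃ P : Pl m, algebraMap (Pl m) (RF m) P =
      algebraMap (Pl m) (RF m) d * y k i := fun k i => hd _ (Finset.mem_union_right _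
    (Finset.mem_union_left _
    (Finset.mem_image.mpr ⟨((k : ℕ), i), by simp, rfl⟩)))
  have hPp : ∀ (k : Fin L) i, ∃ P : Pl m, algebraMap (Pl m) (RF m) P =
      algebraMap (Pl m) (RF m) d * p k i := fun k i => hd _ (Finset.mem_union_right _
    (Finset.mem_union_right _
    (Finset.mem_union_left _ (Finset.mem_image.mpr ⟨((k : ℕ), i), by simp, rfl⟩))))
  have hQ : ∀ (k : Fin L) i, ∃ P : Pl m, algebraMap (Pl m) (RF m) P =
      algebraMap (Pl m) (RF m) d * q k i := fun k i => hd _ (Finset.mem_union_right _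
    (Finset.mem_union_right _
    (Finset.mem_union_right _ (Finset.mem_image.mpr ⟨((k : ℕ), i), by simp, rfl⟩))))
  choose Y hY using hY
  choose P hPp using hPp
  choose Q hQ using hQ
  have hmapadj : ((genP A₀ b).adjugate).map (algebraMap (Pl m) (RF m)) =
      (genK A₀ b).adjugate := by
    have := RingHom.map_adjugate (algebraMap (Pl m) (RF m)) (genP A₀ b)
    simpa [RingHom.mapMatrix_apply, genK] using this
  have hpoly : ∀ i j s, d ^ 2 * gt E₀ E₁ E₂ ((genP A₀ b).adjugate * (b i).map C)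
      ((genP A₀ b).adjugate * (b j).map C) ((genP A₀ b).adjugate * (b s).map C) =
      δ ^ 3 * ∑ k : Fin L, (Y k i * (P k j * Q k s + P k s * Q k j) +
        Y k j * (P k i * Q k s + P k s * Q k i) + Y k s * (P k i * Q k j + P k j * Q k i)) := by
    intro i j s
    apply hinj
    rw [map_mul, map_pow, map_mul, map_pow, gt_map, Matrix.map_mul, Matrix.map_mul,
      Matrix.map_mul, ← hbm, ← hbm, ← hbm, hmapadj, ← hadj, ← hadj, ← hadj, gt_smul1, gt_smul2,
      gt_smul3, hE₀, hE₁, hE₂, gt_scal, hT, map_sum, Finset.sum_range, ← hΔ, ← hdK,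
      Finset.mul_sum, Finset.mul_sum, Finset.mul_sum, Finset.mul_sum, Finset.mul_sum,
      Finset.mul_sum]
    refine Finset.sum_congr rfl fun k _ => ?_
    simp only [map_add, map_mul, hY, hPp, hQ, S3]
    ring
  -- a good point
  have hE0 : E₀ ≠ 0 := by
    intro h
    rw [h, map_zero] at hE₀
    have hd1 : algebraMap (Pl m) (RF m) d ≠ 0 := fun h' => hd0 (hinj (by rw [h', map_zero]))
    exact (mul_ne_zero hd1 he₀) hE₀.symm
  have hne : d * δ * E₀ ≠ 0 := mul_ne_zero (mul_ne_zero hd0 hdet) hE0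
  obtain ⟨a, ha⟩ : ∃ a : Fin m → ℂ, eval a (d * δ * E₀) ≠ 0 := by
    by_contra hcon
    push Not at hcon
    exact hne (MvPolynomial.funext fun a => by rw [hcon a, map_zero])
  rw [map_mul, map_mul] at ha
  have haE : eval a E₀ ≠ 0 := right_ne_zero_of_mul ha
  have had : eval a d ≠ 0 := left_ne_zero_of_mul (left_ne_zero_of_mul ha)
  have haδ : eval a δ ≠ 0 := right_ne_zero_of_mul (left_ne_zero_of_mul ha)
  have hM : (genP A₀ b).map (eval a) = A₀ + ∑ i, a i • b i := eval_genP A₀ b a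
  have hdetM : (A₀ + ∑ i, a i • b i).det = eval a δ := by
    rw [← hM, hδ, RingHom.map_det, RingHom.mapMatrix_apply]
  set N : Mt n := (A₀ + ∑ i, a i • b i).adjugate with hN
  set c : ℂ := (eval a δ) ^ 3 / ((eval a d) ^ 2 * eval a E₀) with hc
  have hval : ∀ i j s, gt 1 (eval a E₁ / eval a E₀) (eval a E₂ / eval a E₀)
      (N * b i) (N * b j) (N * b s) =
      ∑ k : Fin L, (c * eval a (Y k i) * (eval a (P k j) * eval a (Q k s) +
        eval a (P k s) * eval a (Q k j)) +
        c * eval a (Y k j) * (eval a (P k i) * eval a (Q k s) + eval a (P k s) * eval a (Q k i)) +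
        c * eval a (Y k s) * (eval a (P k i) * eval a (Q k j) +
          eval a (P k j) * eval a (Q k i))) := by
    intro i j s
    have h1 := congrArg (eval a) (hpoly i j s)
    rw [map_mul, map_mul, map_pow, map_pow, map_sum, gt_map, Matrix.map_mul, Matrix.map_mul,
      Matrix.map_mul] at h1
    have e1 : ((genP A₀ b).adjugate).map (eval a) = N := by
      have := RingHom.map_adjugate (eval a) (genP A₀ b)
      rw [RingHom.mapMatrix_apply, RingHom.mapMatrix_apply, hM] at this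
      exact this
    have e2 : ∀ i, ((b i).map (C : ℂ → Pl m)).map (eval a) = b i := by
      intro i
      refine Matrix.ext fun k l => ?_
      simp [Matrix.map_apply]
    rw [e1, e2, e2, e2] at h1
    have h2 : gt (eval a E₀) (eval a E₁) (eval a E₂) (N * b i) (N * b j) (N * b s) =
        eval a E₀ * gt 1 (eval a E₁ / eval a E₀) (eval a E₂ / eval a E₀)
          (N * b i) (N * b j) (N * b s) := by
      rw [← gt_scal, mul_one, mul_div_cancel₀ _ haE, mul_div_cancel₀ _ haE]
    rw [h2] at h1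
    have h3 : gt 1 (eval a E₁ / eval a E₀) (eval a E₂ / eval a E₀)
        (N * b i) (N * b j) (N * b s) = ((eval a d) ^ 2 * eval a E₀)⁻¹ *
        ((eval a d) ^ 2 * (eval a E₀ * gt 1 (eval a E₁ / eval a E₀) (eval a E₂ / eval a E₀)
          (N * b i) (N * b j) (N * b s))) := by
      rw [← mul_assoc ((eval a d) ^ 2), inv_mul_cancel_left₀ (mul_ne_zero (pow_ne_zero 2 had) haE)]
    rw [h3, h1, Finset.mul_sum, Finset.mul_sum]
    refine Finset.sum_congr rfl fun k _ => ?_
    simp only [map_add, map_mul, hc]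
    ring
  -- linear independence
  have hNu' : (A₀ + ∑ i, a i • b i) * N = (eval a δ) • (1 : Mt n) := by
    rw [hN, Matrix.mul_adjugate, hdetM]
  have hβ : LinearIndependent ℂ (fun i => N * b i) := by
    have hker : LinearMap.ker (LinearMap.mulLeft ℂ N) = ⊥ := by
      rw [LinearMap.ker_eq_bot']
      intro A hA
      have h1 : (A₀ + ∑ i, a i • b i) * (N * A) = 0 := by
        rw [LinearMap.mulLeft_apply] at hA
        rw [hA, mul_zero]
      rw [← mul_assoc, hNu', Matrix.smul_mul, one_mul] at h1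
      exact (smul_eq_zero.mp h1).resolve_left haδ
    exact hb.map' (LinearMap.mulLeft ℂ N) hker
  have e1 := fun k : Fin L => exists_functional hβ (fun i => c * eval a (Y k i))
  have e2 := fun k : Fin L => exists_functional hβ (fun i => eval a (P k i))
  have e3 := fun k : Fin L => exists_functional hβ (fun i => eval a (Q k i))
  choose y' hy' using e1
  choose p' hp' using e2
  choose q' hq' using e3
  refine ⟨a, y', p', q', by rw [hdetM]; exact haδ, hβ, eval a E₁ / eval a E₀,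
    eval a E₂ / eval a E₀, ?_⟩
  set c₁ := eval a E₁ / eval a E₀ with hc₁
  set c₂ := eval a E₂ / eval a E₀ with hc₂
  have base : ∀ i j s, gt 1 c₁ c₂ (N * b i) (N * b j) (N * b s) =
      ∑ k, F3 (y' k) (p' k) (q' k) (N * b i) (N * b j) (N * b s) := by
    intro i j s
    rw [hval]
    refine Finset.sum_congr rfl fun k _ => ?_
    simp only [F3, hy', hp', hq']
  have s1 : ∀ i j, ∀ D ∈ Submodule.span ℂ (Set.range fun i => N * b i),
      gt 1 c₁ c₂ (N * b i) (N * b j) D = ∑ k, F3 (y' k) (p' k) (q' k) (N * b i) (N * b j) D := by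
    intro i j D hD
    induction hD using Submodule.span_induction with
    | mem D hD => obtain ⟨s, rfl⟩ := hD; exact base i j s
    | zero => simp [gt, F3]
    | add D D' _ _ h h' =>
      rw [gt_add3, h, h', ← Finset.sum_add_distrib]
      refine Finset.sum_congr rfl fun k _ => ?_
      simp only [F3, map_add]; ring
    | smul c D _ h =>
      rw [gt_smul3, h, Finset.mul_sum]
      refine Finset.sum_congr rfl fun k _ => ?_
      simp only [F3, map_smul, smul_eq_mul]; ring
  have s2 : ∀ i, ∀ B ∈ Submodule.span ℂ (Set.range fun i => N * b i),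
      ∀ D ∈ Submodule.span ℂ (Set.range fun i => N * b i),
      gt 1 c₁ c₂ (N * b i) B D = ∑ k, F3 (y' k) (p' k) (q' k) (N * b i) B D := by
    intro i B hB D hD
    induction hB using Submodule.span_induction with
    | mem B hB => obtain ⟨j, rfl⟩ := hB; exact s1 i j D hD
    | zero => simp [gt, F3]
    | add B B' _ _ h h' =>
      rw [gt_add2, h, h', ← Finset.sum_add_distrib]
      refine Finset.sum_congr rfl fun k _ => ?_
      simp only [F3, map_add]; ring
    | smul c B _ h =>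
      rw [gt_smul2, h, Finset.mul_sum]
      refine Finset.sum_congr rfl fun k _ => ?_
      simp only [F3, map_smul, smul_eq_mul]; ring
  intro A hA B hB D hD
  induction hA using Submodule.span_induction with
  | mem A hA => obtain ⟨i, rfl⟩ := hA; exact s2 i B hB D hD
  | zero => simp [gt, F3]
  | add A A' _ _ h h' =>
    rw [gt_add1, h, h', ← Finset.sum_add_distrib]
    refine Finset.sum_congr rfl fun k _ => ?_
    simp only [F3, map_add]; ring
  | smul c A _ h =>
    rw [gt_smul1, h, Finset.mul_sum]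
    refine Finset.sum_congr rfl fun k _ => ?_
    simp only [F3, map_smul, smul_eq_mul]; ring

end Pool.Agent.TH711
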