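import Pool.Agent.H53R3.Bounds

/-!
# Degeneration of a trace form on a space of matrices to a form on another space
-/

namespace Pool.Agent.TH711

open Polynomial Finset Module Pool.Agent.H515R2.MMR Pool.Agent.H53R3

/-- Part of weight `w` of a matrix. -/
def lead {n : ℕ} (s : Fin n → ℕ) (M w : ℕ) (u : Mt n) : Mt n :=
  fun i k => if ex s M (i, k) = w then u i k else 0

lemma pullJ {n : ℕ} {e : Fin n × Fin n → ℕ} {T : ℕ}
    (he : ∀ i j k : Fin n, e (i, j) + e (j, k) + e (k, i) = T)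
    {J : Type} [Fintype J] {w : J → ℕ} {u : J → Mt n}
    {a b c : J → ℂ} {QA QB QC : Fin n × Fin n → ℂ[X]}
    (hA : ∀ τ, (∑ σ, C (a σ) * X ^ (w σ) * C (u σ τ.1 τ.2)) = X ^ (e τ) * QA τ)
    (hB : ∀ τ, (∑ σ, C (b σ) * X ^ (w σ) * C (u σ τ.1 τ.2)) = X ^ (e τ) * QB τ)
    (hC : ∀ τ, (∑ σ, C (c σ) * X ^ (w σ) * C (u σ τ.1 τ.2)) = X ^ (e τ) * QC τ) :
    ∑ σ : J, ∑ τ : J, ∑ υ : J, (C (a σ) * X ^ (w σ)) * (C (b τ) * X ^ (w τ)) *
      (C (c υ) * X ^ (w υ)) * (∑ m : Fin n × Fin n × Fin n,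
        C (u σ m.1 m.2.1) * C (u τ m.2.1 m.2.2) * C (u υ m.2.2 m.1)) =
      X ^ T * ∑ m : Fin n × Fin n × Fin n,
        QA (m.1, m.2.1) * QB (m.2.1, m.2.2) * QC (m.2.2, m.1) := by
  rw [← expand3 (t := (Finset.univ : Finset (Fin n × Fin n × Fin n)))
    (F := fun m σ => C (u σ m.1 m.2.1)) (G := fun m τ => C (u τ m.2.1 m.2.2))
    (H := fun m υ => C (u υ m.2.2 m.1)), Finset.mul_sum]
  refine Finset.sum_congr rfl fun m _ => ?_
  have h1 := hA (m.1, m.2.1)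
  have h2 := hB (m.2.1, m.2.2)
  have h3 := hC (m.2.2, m.1)
  simp only at h1 h2 h3
  rw [h1, h2, h3, ← he m.1 m.2.1 m.2.2, pow_add, pow_add]
  ring

lemma lowestJ {n : ℕ} {s : Fin n → ℕ} {M : ℕ} {J : Type} [Fintype J] {w : J → ℕ}
    {u : J → Mt n} (hw : ∀ j τ, w j < ex s M τ → u j τ.1 τ.2 = 0) (a : J → ℂ)
    (τ : Fin n × Fin n) :
    ∃ Q : ℂ[X], (∑ j, C (a j) * X ^ (w j) * C (u j τ.1 τ.2)) = X ^ (ex s M τ) * Q ∧
      Q.eval 0 = (∑ j, a j • lead s M (w j) (u j)) τ.1 τ.2 := by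
  classical
  refine ⟨∑ j, if ex s M τ ≤ w j then C (a j * u j τ.1 τ.2) * X ^ (w j - ex s M τ) else 0, ?_, ?_⟩
  · rw [Finset.mul_sum]
    refine Finset.sum_congr rfl fun j _ => ?_
    by_cases h : ex s M τ ≤ w j
    · rw [if_pos h]
      have e1 : w j = ex s M τ + (w j - ex s M τ) := by omega
      conv_lhs => rw [e1]
      rw [pow_add, C_mul]
      ring
    · rw [if_neg h, hw j τ (by omega)]
      simp
  · rw [Polynomial.eval_finsetSum, Matrix.sum_apply]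
    refine Finset.sum_congr rfl fun j _ => ?_
    rw [Matrix.smul_apply, smul_eq_mul]
    have hl : lead s M (w j) (u j) τ.1 τ.2 = if ex s M τ = w j then u j τ.1 τ.2 else 0 := rfl
    rw [hl]
    by_cases h : ex s M τ ≤ w j
    · rw [if_pos h]
      rcases Nat.lt_or_ge (ex s M τ) (w j) with hlt | hge
      · rw [if_neg (by omega)]
        simp only [eval_mul, eval_C, eval_pow, eval_X]
        rw [zero_pow (by omega), mul_zero, mul_zero]
      · have h2 : ex s M τ = w j := le_antisymm h hge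
        rw [if_pos h2, h2]
        simp
    · rw [if_neg h, if_neg (by omega)]
      simp

/-- **Degeneration.** -/
theorem brank_family {n h R : ℕ} (α β : ℂ) (V : Submodule ℂ (Mt n)) (s : Fin n → ℕ) (M : ℕ)
    (hs : ∀ i, s i ≤ M) {J : Type} [Fintype J] (w : J → ℕ) (u : J → Mt n)
    (hu : ∀ j, u j ∈ V) (hw : ∀ j τ, w j < ex s M τ → u j τ.1 τ.2 = 0)
    (α' β' κ : ℂ) (hκ : κ ≠ 0) (W : Submodule ℂ (Mt h)) (ι : J → (Mt h →ₗ[ℂ] ℂ))
    (hΦ : ∀ A ∈ W, ∀ B ∈ W, ∀ D ∈ W,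
      Phi α β (∑ j, ι j A • lead s M (w j) (u j)) (∑ j, ι j B • lead s M (w j) (u j))
        (∑ j, ι j D • lead s M (w j) (u j)) = κ * Phi α' β' A B D)
    (HB : BRank α β V V V R) : BRank α' β' W W W R := by
  classical
  obtain ⟨e₀, f, g, k, H⟩ := HB
  have he : ∀ i j k : Fin n, ex s M (i, j) + ex s M (j, k) + ex s M (k, i) = 3 * M := by
    intro i j k
    have := hs i
    have := hs j
    have := hs k
    simp only [ex]
    omega
  have H' : ∀ x y z : J, ∃ E : ℂ[X],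
      ∑ t, f t (u x) * g t (u y) * k t (u z) = X ^ e₀ * (C (Phi α β (u x) (u y) (u z)) + X * E) :=
    fun x y z => H _ (hu x) _ (hu y) _ (hu z)
  choose E hE using H'
  have lA := fun (A : Mt h) => lowestJ hw (fun j => ι j A)
  choose Q hQ1 hQ2 using lA
  set K : ℕ := 3 * M + 1 with hK
  refine ⟨K * e₀ + 3 * M,
    fun t => ∑ j, (ι j).smulRight (C κ⁻¹ * X ^ (w j) * expand ℂ K (f t (u j))),
    fun t => ∑ j, (ι j).smulRight (X ^ (w j) * expand ℂ K (g t (u j))),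
    fun t => ∑ j, (ι j).smulRight (X ^ (w j) * expand ℂ K (k t (u j))), ?_⟩
  intro A hA B hB D hD
  have ef : ∀ t, (∑ j, (ι j).smulRight (C κ⁻¹ * X ^ (w j) * expand ℂ K (f t (u j)))) A =
      C κ⁻¹ * ∑ j, (C (ι j A) * X ^ (w j)) * expand ℂ K (f t (u j)) := by
    intro t
    rw [LinearMap.sum_apply, Finset.mul_sum]
    refine Finset.sum_congr rfl fun j _ => ?_
    rw [LinearMap.smulRight_apply, Polynomial.smul_eq_C_mul]
    ring
  have eg : ∀ t, (∑ j, (ι j).smulRight (X ^ (w j) * expand ℂ K (g t (u j)))) B =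
      ∑ j, (C (ι j B) * X ^ (w j)) * expand ℂ K (g t (u j)) := by
    intro t
    rw [LinearMap.sum_apply]
    refine Finset.sum_congr rfl fun j _ => ?_
    rw [LinearMap.smulRight_apply, Polynomial.smul_eq_C_mul]
    ring
  have ek : ∀ t, (∑ j, (ι j).smulRight (X ^ (w j) * expand ℂ K (k t (u j)))) D =
      ∑ j, (C (ι j D) * X ^ (w j)) * expand ℂ K (k t (u j)) := by
    intro t
    rw [LinearMap.sum_apply]
    refine Finset.sum_congr rfl fun j _ => ?_
    rw [LinearMap.smulRight_apply, Polynomial.smul_eq_C_mul]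
    ring
  simp only [ef, eg, ek]
  have hpull : ∑ t : Fin R, (C κ⁻¹ * ∑ j, (C (ι j A) * X ^ (w j)) * expand ℂ K (f t (u j))) *
      (∑ j, (C (ι j B) * X ^ (w j)) * expand ℂ K (g t (u j))) *
      (∑ j, (C (ι j D) * X ^ (w j)) * expand ℂ K (k t (u j))) =
      C κ⁻¹ * ∑ t : Fin R, (∑ j, (C (ι j A) * X ^ (w j)) * expand ℂ K (f t (u j))) *
      (∑ j, (C (ι j B) * X ^ (w j)) * expand ℂ K (g t (u j))) *
      (∑ j, (C (ι j D) * X ^ (w j)) * expand ℂ K (k t (u j))) := by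
    rw [Finset.mul_sum]
    exact Finset.sum_congr rfl fun t _ => by ring
  rw [hpull, expand3]
  have hin : ∀ x y z : J,
      (∑ t : Fin R, (expand ℂ K (f t (u x)) * expand ℂ K (g t (u y)) *
        expand ℂ K (k t (u z)) : ℂ[X])) =
      X ^ (K * e₀) * (C α * (∑ m : Fin n × Fin n × Fin n, C (u x m.1 m.2.1) *
        C (u y m.2.1 m.2.2) * C (u z m.2.2 m.1)) +
        C β * (∑ m : Fin n × Fin n × Fin n, C (u x m.1 m.2.1) *
        C (u z m.2.1 m.2.2) * C (u y m.2.2 m.1))) +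
        X ^ (K * e₀) * (X ^ K * expand ℂ K (E x y z)) := by
    intro x y z
    have h0 := congrArg (expand ℂ K) (hE x y z)
    rw [map_sum] at h0
    simp only [map_mul, map_add, map_pow, expand_X, expand_C] at h0
    rw [h0, ← mul_add, ← pow_mul]
    congr 2
    unfold Phi
    rw [trace_expand, trace_expand2]
    simp only [C_add, C_mul, map_sum]
  simp only [hin]
  have hsplit : ∀ x y z : J, (C (ι x A) * X ^ (w x)) * (C (ι y B) * X ^ (w y)) *
        (C (ι z D) * X ^ (w z)) *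
        (X ^ (K * e₀) * (C α * (∑ m : Fin n × Fin n × Fin n, C (u x m.1 m.2.1) *
        C (u y m.2.1 m.2.2) * C (u z m.2.2 m.1)) +
        C β * (∑ m : Fin n × Fin n × Fin n, C (u x m.1 m.2.1) *
        C (u z m.2.1 m.2.2) * C (u y m.2.2 m.1))) +
        X ^ (K * e₀) * (X ^ K * expand ℂ K (E x y z))) =
        (X ^ (K * e₀) * C α) * ((C (ι x A) * X ^ (w x)) * (C (ι y B) * X ^ (w y)) *
        (C (ι z D) * X ^ (w z)) *
        (∑ m : Fin n × Fin n × Fin n, C (u x m.1 m.2.1) *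
        C (u y m.2.1 m.2.2) * C (u z m.2.2 m.1))) +
        (X ^ (K * e₀) * C β) * ((C (ι x A) * X ^ (w x)) * (C (ι z D) * X ^ (w z)) *
        (C (ι y B) * X ^ (w y)) *
        (∑ m : Fin n × Fin n × Fin n, C (u x m.1 m.2.1) *
        C (u z m.2.1 m.2.2) * C (u y m.2.2 m.1))) +
        (X ^ (K * e₀) * X ^ K) * ((C (ι x A) * X ^ (w x)) * (C (ι y B) * X ^ (w y)) *
        (C (ι z D) * X ^ (w z)) * expand ℂ K (E x y z)) := by
    intro x y z
    ring
  simp only [hsplit, Finset.sum_add_distrib, ← Finset.mul_sum]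
  have p1 := pullJ he (u := u) (w := w) (hQ1 A) (hQ1 B) (hQ1 D)
  have p2 := pullJ he (u := u) (w := w) (hQ1 A) (hQ1 D) (hQ1 B)
  have hcomm : ∑ x : J, ∑ y : J, ∑ z : J, (C (ι x A) * X ^ (w x)) * (C (ι z D) * X ^ (w z)) *
        (C (ι y B) * X ^ (w y)) *
        (∑ m : Fin n × Fin n × Fin n, C (u x m.1 m.2.1) *
        C (u z m.2.1 m.2.2) * C (u y m.2.2 m.1)) =
      ∑ x : J, ∑ z : J, ∑ y : J, (C (ι x A) * X ^ (w x)) * (C (ι z D) * X ^ (w z)) *
        (C (ι y B) * X ^ (w y)) *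
        (∑ m : Fin n × Fin n × Fin n, C (u x m.1 m.2.1) *
        C (u z m.2.1 m.2.2) * C (u y m.2.2 m.1)) :=
    Finset.sum_congr rfl fun σ _ => Finset.sum_comm
  rw [p1, hcomm, p2]
  set P : ℂ[X] := C κ⁻¹ * (C α * ∑ m : Fin n × Fin n × Fin n,
      Q A (m.1, m.2.1) * Q B (m.2.1, m.2.2) * Q D (m.2.2, m.1) +
      C β * ∑ m : Fin n × Fin n × Fin n,
      Q A (m.1, m.2.1) * Q D (m.2.1, m.2.2) * Q B (m.2.2, m.1)) with hP
  have hP0 : P.eval 0 = Phi α' β' A B D := by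
    have h1 := hΦ A hA B hB D hD
    rw [hP, eval_mul, eval_add, eval_mul, eval_mul, eval_C, eval_C, eval_C,
      Polynomial.eval_finsetSum, Polynomial.eval_finsetSum]
    simp only [eval_mul, hQ2]
    unfold Phi at h1
    rw [trace_expand, trace_expand2] at h1
    rw [h1, inv_mul_cancel_left₀ hκ]
    rfl
  have hP1 : P = C (Phi α' β' A B D) + X * P.divX := by
    rw [← hP0, ← Polynomial.coeff_zero_eq_eval_zero]
    conv_lhs => rw [← Polynomial.divX_mul_X_add P]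
    ring
  refine ⟨P.divX + C κ⁻¹ * ∑ x : J, ∑ y : J, ∑ z : J,
    ((C (ι x A) * X ^ (w x)) * (C (ι y B) * X ^ (w y)) *
        (C (ι z D) * X ^ (w z)) * expand ℂ K (E x y z)), ?_⟩
  have hKp : (X : ℂ[X]) ^ K = X ^ (3 * M) * X := pow_succ _ _
  rw [hKp, pow_add]
  have e1 : C (Phi α' β' A B D) = P - X * P.divX := by
    rw [eq_sub_iff_add_eq]
    exact hP1.symm
  have e2 : C κ⁻¹ * (X ^ (K * e₀) * C α * (X ^ (3 * M) * ∑ m : Fin n × Fin n × Fin n,
      Q A (m.1, m.2.1) * Q B (m.2.1, m.2.2) * Q D (m.2.2, m.1)) +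
      X ^ (K * e₀) * C β * (X ^ (3 * M) * ∑ m : Fin n × Fin n × Fin n,
      Q A (m.1, m.2.1) * Q D (m.2.1, m.2.2) * Q B (m.2.2, m.1))) =
      X ^ (K * e₀) * X ^ (3 * M) * P := by
    rw [hP]; ring
  rw [e1, mul_add, e2]
  ring

end Pool.Agent.TH711
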