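import Mathlib

/-!
# Hyperbolic bases
-/

namespace Pool.Agent.TH711

open Module

section

variable {V : Type} [AddCommGroup V] [Module ℂ V]

/-- A hyperbolic pair. -/
lemma exists_hyperbolic_pair {s : ℂ} (hs : s = 1 ∨ s = -1) (B : V →ₗ[ℂ] V →ₗ[ℂ] ℂ)
    (hB : ∀ x y, B x y = s * B y x) (hnd : ∀ x, (∀ y, B x y = 0) → x = 0)
    (hdim : 2 ≤ finrank ℂ V) : ∃ v w : V, B v v = 0 ∧ B w w = 0 ∧ B v w ≠ 0 := by
  -- a nonzero isotropic vector
  obtain ⟨v, hv0, hvv⟩ : ∃ v : V, v ≠ 0 ∧ B v v = 0 := by
    obtain ⟨x, hx⟩ : ∃ x : V, x ≠ 0 := by
      have : Nontrivial V := by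
        apply Module.nontrivial_of_finrank_pos (R := ℂ)
        omega
      exact exists_ne 0
    by_cases hxx : B x x = 0
    · exact ⟨x, hx, hxx⟩
    · obtain ⟨y, hy⟩ : ∃ y : V, y ∉ Submodule.span ℂ {x} := by
        by_contra hcon
        push Not at hcon
        have h1 : Submodule.span ℂ {x} = ⊤ := by
          rw [eq_top_iff]
          exact fun y _ => hcon y
        have h2 := finrank_span_singleton (K := ℂ) hx
        rw [h1, finrank_top] at h2
        omega
      -- solve `B (y + t x) (y + t x) = 0`
      obtain ⟨t, ht⟩ : ∃ t : ℂ, B x x * (t * t) + (B x y + B y x) * t + B y y = 0 := by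
        obtain ⟨r, hr⟩ := IsAlgClosed.exists_eq_mul_self
          (discrim (B x x) (B x y + B y x) (B y y))
        exact exists_quadratic_eq_zero hxx ⟨r, hr⟩
      refine ⟨y + t • x, ?_, ?_⟩
      · intro h
        apply hy
        rw [Submodule.mem_span_singleton]
        exact ⟨-t, by rw [neg_smul]; exact (eq_neg_of_add_eq_zero_left h).symm⟩
      · simp only [map_add, map_smul, LinearMap.add_apply, LinearMap.smul_apply, smul_eq_mul]
        linear_combination ht
  obtain ⟨w, hw⟩ : ∃ w, B v w ≠ 0 := by
    by_contra hcon
    push Not at hcon
    exact hv0 (hnd v hcon)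
  refine ⟨v, w - (B w w / (2 * B v w)) • v, hvv, ?_, ?_⟩
  · have h1 : B w v = s * B v w := hB w v
    simp only [map_sub, map_smul, LinearMap.sub_apply, LinearMap.smul_apply, smul_eq_mul, hvv,
      mul_zero, sub_zero, h1]
    rcases hs with rfl | rfl
    · field_simp
      ring
    · have h2 : B w w = 0 := by
        have := hB w w
        linear_combination (1 / 2) * this
      rw [h2]
      simp
  · simp only [map_sub, map_smul, smul_eq_mul, hvv, mul_zero, sub_zero]
    exact hw

end

/-- A nondegenerate symmetric or alternating form has a hyperbolic basis. -/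
theorem exists_hyperbolic_basis {s : ℂ} (hs : s = 1 ∨ s = -1) : ∀ (n : ℕ) (V : Type)
    [AddCommGroup V] [Module ℂ V] [FiniteDimensional ℂ V] (B : V →ₗ[ℂ] V →ₗ[ℂ] ℂ),
    finrank ℂ V = n → (∀ x y, B x y = s * B y x) → (∀ x, (∀ y, B x y = 0) → x = 0) →
    ∃ f : Fin n → V, ∀ i j, B (f i) (f j) ≠ 0 ↔ j = Fin.rev i := by
  have hs0 : s ≠ 0 := by rcases hs with rfl | rfl <;> norm_num
  intro n
  induction n using Nat.twoStepInduction with
  | zero =>
    intro V _ _ _ B _ _ _
    exact ⟨fun i => i.elim0, fun i => i.elim0⟩
  | one =>
    intro V _ _ _ B hdim hB hnd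
    obtain ⟨x, hx0, hx⟩ := finrank_eq_one_iff'.mp hdim
    refine ⟨fun _ => x, fun i j => ?_⟩
    have h1 : B x x ≠ 0 := by
      intro h
      apply hx0
      apply hnd
      intro y
      obtain ⟨c, rfl⟩ := hx y
      simp [h]
    constructor
    · intro _
      exact Subsingleton.elim _ _
    · intro _
      exact h1
  | more n ih _ =>
    intro V _ _ _ B hdim hB hnd
    obtain ⟨v, w, hvv, hww, hvw⟩ := exists_hyperbolic_pair hs B hB hnd (by omega)
    have hwv : B w v ≠ 0 := by
      rw [hB w v]
      exact mul_ne_zero hs0 hvw
    -- the orthogonal complement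
    let L : V →ₗ[ℂ] (ℂ × ℂ) := (B v).prod (B w)
    have hLs : LinearMap.range L = ⊤ := by
      rw [LinearMap.range_eq_top]
      rintro ⟨a, b⟩
      refine ⟨(b / B w v) • v + (a / B v w) • w, ?_⟩
      ext
      · simp [L, hvv, div_mul_cancel₀ _ hvw]
      · simp [L, hww, div_mul_cancel₀ _ hwv]
    have hW : finrank ℂ (LinearMap.ker L) = n := by
      have h1 := L.finrank_range_add_finrank_ker
      rw [hLs, finrank_top, hdim] at h1
      have : finrank ℂ (ℂ × ℂ) = 2 := by simp
      omega
    have hmem : ∀ x : LinearMap.ker L, B v x = 0 ∧ B w x = 0 := by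
      intro x
      have h0 : (B v x, B w x) = (0 : ℂ × ℂ) := LinearMap.mem_ker.mp x.2
      exact ⟨congrArg Prod.fst h0, congrArg Prod.snd h0⟩
    have hdec : ∀ y : V, ∃ z : LinearMap.ker L, ∃ a b : ℂ, y = a • v + b • w + (z : V) := by
      intro y
      refine ⟨⟨y - ((B w y / B w v) • v + (B v y / B v w) • w), ?_⟩, B w y / B w v,
        B v y / B v w, by simp⟩
      rw [LinearMap.mem_ker]
      ext
      · simp [L, hvv, div_mul_cancel₀ _ hvw]
      · simp [L, hww, div_mul_cancel₀ _ hwv]
    let B' : LinearMap.ker L →ₗ[ℂ] LinearMap.ker L →ₗ[ℂ] ℂ :=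
      B.compl₁₂ (LinearMap.ker L).subtype (LinearMap.ker L).subtype
    have hB' : ∀ x y : LinearMap.ker L, B' x y = B x y := fun x y => rfl
    obtain ⟨f, hf⟩ := ih (LinearMap.ker L) B' hW (fun x y => by rw [hB', hB', hB]) (by
      intro x hx
      apply Subtype.ext
      show (x : V) = 0
      apply hnd
      intro y
      obtain ⟨z, a, b, rfl⟩ := hdec y
      have h1 : B (x : V) (z : V) = 0 := hx z
      have h2 : B (x : V) v = 0 := by rw [hB, (hmem x).1, mul_zero]
      have h3 : B (x : V) w = 0 := by rw [hB, (hmem x).2, mul_zero]
      simp [h1, h2, h3])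
    have hvf : ∀ i, B v (f i) = 0 := fun i => (hmem (f i)).1
    have hwf : ∀ i, B w (f i) = 0 := fun i => (hmem (f i)).2
    have hfv : ∀ i, B (f i) v = 0 := fun i => by rw [hB, hvf, mul_zero]
    have hfw : ∀ i, B (f i) w = 0 := fun i => by rw [hB, hwf, mul_zero]
    refine ⟨Fin.cons v (Fin.snoc (fun i => (f i : V)) w), ?_⟩
    intro i j
    induction i using Fin.cases with
    | zero =>
      induction j using Fin.cases with
      | zero =>
        simp only [Fin.cons_zero, Fin.rev_zero, hvv, ne_eq, not_true_eq_false, false_iff]
        exact fun h => absurd h (Fin.last_pos.ne)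
      | succ j =>
        induction j using Fin.lastCases with
        | last =>
          simp only [Fin.cons_zero, Fin.cons_succ, Fin.snoc_last, Fin.rev_zero, ne_eq, hvw,
            not_false_eq_true, true_iff]
          exact Fin.succ_last _
        | cast j =>
          simp only [Fin.cons_zero, Fin.cons_succ, Fin.snoc_castSucc, Fin.rev_zero, hvf, ne_eq,
            not_true_eq_false, false_iff]
          intro h
          have := congrArg Fin.val h
          simp at this
          omega
    | succ i =>
      induction i using Fin.lastCases with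
      | last =>
        induction j using Fin.cases with
        | zero =>
          simp only [Fin.cons_zero, Fin.cons_succ, Fin.snoc_last, ne_eq, hwv,
            not_false_eq_true, true_iff]
          apply Fin.ext
          simp [Fin.val_rev]
        | succ j =>
          induction j using Fin.lastCases with
          | last =>
            simp only [Fin.cons_succ, Fin.snoc_last, hww, ne_eq, not_true_eq_false, false_iff]
            intro h
            have := congrArg Fin.val h
            simp [Fin.val_rev] at this
          | cast j =>
            simp only [Fin.cons_succ, Fin.snoc_last, Fin.snoc_castSucc, hwf, ne_eq,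
              not_true_eq_false, false_iff]
            intro h
            have := congrArg Fin.val h
            simp [Fin.val_rev] at this
      | cast i =>
        induction j using Fin.cases with
        | zero =>
          simp only [Fin.cons_zero, Fin.cons_succ, Fin.snoc_castSucc, hfv, ne_eq,
            not_true_eq_false, false_iff]
          intro h
          have := congrArg Fin.val h
          simp [Fin.val_rev] at this
          have := i.2
          omega
        | succ j =>
          induction j using Fin.lastCases with
          | last =>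
            simp only [Fin.cons_succ, Fin.snoc_last, Fin.snoc_castSucc, hfw, ne_eq,
              not_true_eq_false, false_iff]
            intro h
            have := congrArg Fin.val h
            simp [Fin.val_rev] at this
            have := i.2
            omega
          | cast j =>
            simp only [Fin.cons_succ, Fin.snoc_castSucc]
            rw [← hB', hf]
            constructor
            · rintro rfl
              apply Fin.ext
              simp [Fin.val_rev]
              have := i.2
              omega
            · intro h
              have := congrArg Fin.val h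
              apply Fin.ext
              simp [Fin.val_rev] at this ⊢
              have := i.2
              omega

end Pool.Agent.TH711
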