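import Pool.Agent.TH711.MM.Mirror

/-!
# The bound for spaces of mirror symmetric matrices
-/

namespace Pool.Agent.TH711

open Finset Module Pool.Agent.H515R2.MMR Pool.Agent.H53R3 Matrix

section emb

variable {n h : ℕ} (φ : Fin h → Fin n)

/-- Inclusion of coordinates. -/
def inc : Matrix (Fin n) (Fin h) ℂ := fun i k => if i = φ k then 1 else 0

variable {φ}

lemma inc_self (hφ : Function.Injective φ) : (inc φ)ᵀ * inc φ = 1 := by
  ext k l
  simp only [Matrix.mul_apply, Matrix.transpose_apply, inc, Matrix.one_apply]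
  by_cases hkl : k = l
  · subst hkl
    simp
  · rw [if_neg hkl]
    refine Finset.sum_eq_zero fun i _ => ?_
    by_cases h1 : i = φ k
    · have h2 : i ≠ φ l := fun h => hkl (hφ (by rw [← h1, ← h]))
      simp [h2]
    · simp [h1]

lemma inc_orth {ψ : Fin h → Fin n} (hφψ : ∀ k l, φ k ≠ ψ l) : (inc φ)ᵀ * inc ψ = 0 := by
  ext k l
  simp only [Matrix.mul_apply, Matrix.transpose_apply, inc, Matrix.zero_apply]
  refine Finset.sum_eq_zero fun i _ => ?_
  by_cases h1 : i = φ k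
  · have h2 : i ≠ ψ l := fun h => hφψ k l (by rw [← h1, ← h])
    simp [h2]
  · simp [h1]

/-- Two blocks. -/
noncomputable def emb (E F : Matrix (Fin n) (Fin h) ℂ) (A A' : Mt h) : Mt n :=
  E * A * Eᵀ + F * A' * Fᵀ

lemma emb_mul {E F : Matrix (Fin n) (Fin h) ℂ} (h1 : Eᵀ * E = 1) (h2 : Fᵀ * F = 1)
    (h3 : Eᵀ * F = 0) (h4 : Fᵀ * E = 0) (A A' B B' : Mt h) :
    emb E F A A' * emb E F B B' = emb E F (A * B) (A' * B') := by
  unfold emb
  rw [add_mul, mul_add, mul_add]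
  have e1 : E * A * Eᵀ * (E * B * Eᵀ) = E * (A * B) * Eᵀ := by
    calc E * A * Eᵀ * (E * B * Eᵀ) = E * A * (Eᵀ * E) * B * Eᵀ := by simp only [Matrix.mul_assoc]
      _ = _ := by rw [h1, Matrix.mul_one, ← Matrix.mul_assoc E A B]
  have e2 : E * A * Eᵀ * (F * B' * Fᵀ) = 0 := by
    calc E * A * Eᵀ * (F * B' * Fᵀ) = E * A * (Eᵀ * F) * B' * Fᵀ := by
          simp only [Matrix.mul_assoc]
      _ = 0 := by rw [h3]; simp
  have e3 : F * A' * Fᵀ * (E * B * Eᵀ) = 0 := by
    calc F * A' * Fᵀ * (E * B * Eᵀ) = F * A' * (Fᵀ * E) * B * Eᵀ := by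
          simp only [Matrix.mul_assoc]
      _ = 0 := by rw [h4]; simp
  have e4 : F * A' * Fᵀ * (F * B' * Fᵀ) = F * (A' * B') * Fᵀ := by
    calc F * A' * Fᵀ * (F * B' * Fᵀ) = F * A' * (Fᵀ * F) * B' * Fᵀ := by
          simp only [Matrix.mul_assoc]
      _ = _ := by rw [h2, Matrix.mul_one, ← Matrix.mul_assoc F A' B']
  rw [e1, e2, e3, e4, add_zero, zero_add]

lemma emb_trace {E F : Matrix (Fin n) (Fin h) ℂ} (h1 : Eᵀ * E = 1) (h2 : Fᵀ * F = 1)
    (A A' : Mt h) : (emb E F A A').trace = A.trace + A'.trace := by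
  unfold emb
  rw [Matrix.trace_add, Matrix.trace_mul_comm (E * A), Matrix.trace_mul_comm (F * A'),
    ← Matrix.mul_assoc, ← Matrix.mul_assoc, h1, h2, Matrix.one_mul, Matrix.one_mul]

/-- The adjoint block. -/
noncomputable def adj' (γ : Fin h → ℂ) (A : Mt h) : Mt h :=
  Matrix.diagonal (fun k => (γ k)⁻¹) * Aᵀ * Matrix.diagonal γ

lemma adj'_three {γ : Fin h → ℂ} (hγ : ∀ k, γ k ≠ 0) (A B D : Mt h) :
    (adj' γ A * adj' γ B * adj' γ D).trace = (B * A * D).trace := by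
  have h0 : Matrix.diagonal γ * Matrix.diagonal (fun k => (γ k)⁻¹) = (1 : Mt h) := by
    rw [Matrix.diagonal_mul_diagonal, ← Matrix.diagonal_one]
    congr 1
    funext k
    exact mul_inv_cancel₀ (hγ k)
  have h1 : adj' γ A * adj' γ B * adj' γ D =
      Matrix.diagonal (fun k => (γ k)⁻¹) * (Aᵀ * Bᵀ * Dᵀ) * Matrix.diagonal γ := by
    unfold adj'
    calc _ = Matrix.diagonal (fun k => (γ k)⁻¹) * Aᵀ *
          (Matrix.diagonal γ * Matrix.diagonal (fun k => (γ k)⁻¹)) * Bᵀ *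
          (Matrix.diagonal γ * Matrix.diagonal (fun k => (γ k)⁻¹)) * Dᵀ * Matrix.diagonal γ := by
            simp only [Matrix.mul_assoc]
      _ = _ := by rw [h0]; simp only [Matrix.mul_one, Matrix.mul_assoc]
  rw [h1, Matrix.trace_mul_comm, ← Matrix.mul_assoc, h0, Matrix.one_mul, ← Matrix.transpose_mul,
    ← Matrix.transpose_mul, Matrix.trace_transpose, Matrix.trace_mul_comm]

lemma Phi_emb {E F : Matrix (Fin n) (Fin h) ℂ} (h1 : Eᵀ * E = 1) (h2 : Fᵀ * F = 1)
    (h3 : Eᵀ * F = 0) (h4 : Fᵀ * E = 0) {γ : Fin h → ℂ} (hγ : ∀ k, γ k ≠ 0) (A B D : Mt h) :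
    Phi 1 1 (emb E F A (adj' γ A)) (emb E F B (adj' γ B)) (emb E F D (adj' γ D)) =
      2 * Phi 1 1 A B D := by
  unfold Phi
  rw [emb_mul h1 h2 h3 h4, emb_mul h1 h2 h3 h4, emb_mul h1 h2 h3 h4, emb_mul h1 h2 h3 h4,
    emb_trace h1 h2, emb_trace h1 h2, adj'_three hγ, adj'_three hγ]
  ring

lemma inc_apply (B : Mt h) (i j : Fin n) : (inc φ * B * (inc φ)ᵀ) i j =
    ∑ k, ∑ l, if φ k = i ∧ φ l = j then B k l else 0 := by
  simp only [Matrix.mul_apply, Matrix.transpose_apply, inc, Finset.sum_mul]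
  rw [Finset.sum_comm]
  refine Finset.sum_congr rfl fun k _ => Finset.sum_congr rfl fun l _ => ?_
  rcases eq_or_ne i (φ k) with hk | hk
  · rcases eq_or_ne j (φ l) with hl | hl
    · rw [if_pos hk, if_pos hl, if_pos ⟨hk.symm, hl.symm⟩]; ring
    · rw [if_neg hl, if_neg (fun hc : φ k = i ∧ φ l = j => hl hc.2.symm)]; ring
  · rw [if_neg hk, if_neg (fun hc : φ k = i ∧ φ l = j => hk hc.1.symm)]; ring

lemma adj'_apply (γ : Fin h → ℂ) (A : Mt h) (k l : Fin h) :
    adj' γ A k l = γ l / γ k * A l k := by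
  unfold adj'
  rw [Matrix.mul_diagonal, Matrix.diagonal_mul, Matrix.transpose_apply]
  ring

lemma emb_eq_sum {ψ : Fin h → Fin n} (γ : Fin h → ℂ) (A : Mt h) :
    emb (inc φ) (inc ψ) A (adj' γ A) = ∑ k, ∑ l, A k l • (Matrix.single (φ k) (φ l) 1 +
      (γ k / γ l) • Matrix.single (ψ l) (ψ k) (1 : ℂ)) := by
  ext i j
  unfold emb
  rw [Matrix.add_apply, inc_apply, inc_apply]
  simp only [Matrix.add_apply, Matrix.sum_apply, Matrix.smul_apply, smul_eq_mul,
    Matrix.single_apply, adj'_apply]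
  rw [Finset.sum_comm (f := fun k l => if ψ k = i ∧ ψ l = j then γ l / γ k * A l k else 0),
    ← Finset.sum_add_distrib]
  refine Finset.sum_congr rfl fun k _ => ?_
  rw [← Finset.sum_add_distrib]
  refine Finset.sum_congr rfl fun l _ => ?_
  split_ifs <;> ring

end emb

/-- Matrices supported on a pattern. -/
def pat {h : ℕ} (T : Finset (Fin h × Fin h)) : Submodule ℂ (Mt h) where
  carrier := {A | ∀ k l, (k, l) ∉ T → A k l = 0}
  add_mem' := fun {A B} hA hB k l hkl => by simp [hA k l hkl, hB k l hkl]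
  zero_mem' := fun k l _ => rfl
  smul_mem' := fun c A hA k l hkl => by simp [hA k l hkl]

lemma finrank_pat {h : ℕ} (T : Finset (Fin h × Fin h)) : T.card ≤ finrank ℂ (pat T) := by
  classical
  let J : (T → ℂ) →ₗ[ℂ] pat T :=
    { toFun := fun c => ⟨fun k l => if hh : (k, l) ∈ T then c ⟨(k, l), hh⟩ else 0,
        fun k l hkl => by simp [hkl]⟩
      map_add' := fun c d => by
        apply Subtype.ext
        funext k l
        show (if hh : (k, l) ∈ T then (c + d) ⟨(k, l), hh⟩ else 0) =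
          (if hh : (k, l) ∈ T then c ⟨(k, l), hh⟩ else 0) +
          (if hh : (k, l) ∈ T then d ⟨(k, l), hh⟩ else 0)
        split_ifs <;> simp
      map_smul' := fun r c => by
        apply Subtype.ext
        funext k l
        show (if hh : (k, l) ∈ T then (r • c) ⟨(k, l), hh⟩ else 0) =
          r * (if hh : (k, l) ∈ T then c ⟨(k, l), hh⟩ else 0)
        split_ifs <;> simp }
  have hJ : Function.Injective J := by
    intro c d hcd
    funext σ
    have h1 := congrFun (congrFun (congrArg Subtype.val hcd) σ.1.1) σ.1.2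
    have h2 : (σ.1.1, σ.1.2) ∈ T := σ.2
    have h3 : ∀ c : T → ℂ, (J c : Mt h) σ.1.1 σ.1.2 = c σ := by
      intro c
      show (if hh : (σ.1.1, σ.1.2) ∈ T then c ⟨(σ.1.1, σ.1.2), hh⟩ else 0) = c σ
      rw [dif_pos h2]
    rw [h3, h3] at h1
    exact h1
  have := LinearMap.finrank_le_finrank_of_injective hJ
  simpa using this

/-- The leading part of a pivot vector. -/
lemma lead_pivot {n : ℕ} {γ : Fin n → ℂ} (hγ : ∀ i, γ i ≠ 0) {u : Mt n}
    (hm : u ∈ mirS γ) {a b : Fin n} (hab : a ≠ b) (har : a ≠ Fin.rev b) (h1 : u a b = 1) :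
    lead (mw n) (2 * 5 ^ n) (mex (a, b)) u = Matrix.single a b 1 +
      (γ a / γ b) • Matrix.single (Fin.rev b) (Fin.rev a) (1 : ℂ) := by
  ext i m
  have hl : lead (mw n) (2 * 5 ^ n) (mex (a, b)) u i m =
    if mex (i, m) = mex (a, b) then u i m else 0 := rfl
  rw [hl]
  simp only [Matrix.add_apply, Matrix.smul_apply, Matrix.single_apply, smul_eq_mul]
  have hu2 : u (Fin.rev b) (Fin.rev a) = γ a / γ b := by
    have := hm a b
    rw [h1] at this
    rw [eq_div_iff (hγ b), mul_comm]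
    linear_combination -this
  have hrb : Fin.rev b ≠ a := fun h => har h.symm
  by_cases h2 : a = i ∧ b = m
  · obtain ⟨rfl, rfl⟩ := h2
    rw [if_pos rfl, if_pos ⟨rfl, rfl⟩, if_neg (fun hc => hrb hc.1), h1]
    ring
  · by_cases h3 : Fin.rev b = i ∧ Fin.rev a = m
    · obtain ⟨rfl, rfl⟩ := h3
      have : mex ((Fin.rev b, Fin.rev a) : Fin n × Fin n) = mex (a, b) := mex_mir' (a, b)
      rw [if_pos this, if_neg h2, if_pos ⟨rfl, rfl⟩, hu2]
      ring
    · rw [if_neg h2, if_neg h3]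
      rw [if_neg]
      · ring
      · intro hc
        rcases mex_inj (σ := (a, b)) (τ := (i, m)) hab hc.symm with h4 | h4
        · exact h2 ⟨(congrArg Prod.fst h4).symm, (congrArg Prod.snd h4).symm⟩
        · exact h3 ⟨(congrArg Prod.fst h4).symm, (congrArg Prod.snd h4).symm⟩

/-- **Spaces of mirror symmetric matrices.** -/
theorem mir_bound {n q R : ℕ} (hq : 1 ≤ q) {γ : Fin n → ℂ} (hγ : ∀ i, γ i ≠ 0)
    (V : Submodule ℂ (Mt n)) (hV : V ≤ mirS γ)
    (hdim : n ^ 2 + (6 * q + 18) * n < 4 * finrank ℂ V) (HB : BRank 1 1 V V V R) :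
    (q : ℝ) ^ omega ≤ R := by
  classical
  set V0 : Submodule ℂ (Mt n) := V ⊓ zeroDiag n with hV0
  have hfr := finrank_zeroDiag V
  have hV0m : V0 ≤ mirS γ := inf_le_left.trans hV
  obtain ⟨T, u, hTc, hP⟩ := mirror_pivots hγ V0 hV0m
  have HB0 : BRank 1 1 V0 V0 V0 R := HB.mono inf_le_left inf_le_left inf_le_left
  obtain ⟨x, hx⟩ := exists_transversal T
  set φ : Fin (n / 2) → Fin n := fun k => pt2 k (x k) with hφ
  set TH : Finset (Fin (n / 2) × Fin (n / 2)) :=
    Finset.univ.filter fun p => ((φ p.1, φ p.2) : Fin n × Fin n) ∈ T with hTH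
  have hφi : Function.Injective φ := fun k l h => pt2_inj h
  have hφr : ∀ k l, φ k ≠ Fin.rev (φ l) := fun k l => pt2_ne_rev k l x
  have hψi : Function.Injective (fun k => Fin.rev (φ k)) := fun k l h =>
    hφi (Fin.rev_injective h)
  have hcount : (n / 2) ^ 2 + (3 * q + 2) * (n / 2) < 2 * TH.card := by
    have h1 : 2 * finrank ℂ V ≤ 4 * TH.card + 7 * n := by
      have : TH.card = (Finset.univ.filter fun p : Fin (n / 2) × Fin (n / 2) =>
        ((pt2 p.1 (x p.1), pt2 p.2 (x p.2)) : Fin n × Fin n) ∈ T).card := rfl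
      rw [← this] at hx
      rw [← hV0] at hfr
      omega
    have h2 : 2 * (n / 2) ≤ n := Nat.mul_div_le n 2
    have h3 : (2 * (n / 2)) ^ 2 ≤ n ^ 2 := Nat.pow_le_pow_left h2 2
    have h4 : (3 * q + 2) * (2 * (n / 2)) ≤ (3 * q + 2) * n := Nat.mul_le_mul_left _ h2
    nlinarith
  have hdiag : ∀ σ ∈ T, σ.1 ≠ σ.2 := by
    intro σ hσ h
    have h1 := (hP σ hσ).2.1
    have h2 : u σ ∈ zeroDiag n := inf_le_right (a := V) (hP σ hσ).1
    rw [← h, h2 σ.1] at h1
    exact zero_ne_one h1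
  have hBW : BRank 1 1 (pat TH) (pat TH) (pat TH) R := by
    refine brank_family 1 1 V0 (mw n) (2 * 5 ^ n) mw_le (J := TH)
      (fun j => mex ((φ j.1.1, φ j.1.2) : Fin n × Fin n))
      (fun j => u (φ j.1.1, φ j.1.2)) (fun j => (hP _ (Finset.mem_filter.mp j.2).2).1)
      (fun j τ hτ => (hP _ (Finset.mem_filter.mp j.2).2).2.2 τ hτ) 1 1 2 (by norm_num) (pat TH)
      (fun j => (Matrix.entryLinearMap ℂ ℂ j.1.1 j.1.2)) ?_ HB0
    have hsum : ∀ A ∈ pat TH, ∑ j : TH, (Matrix.entryLinearMap ℂ ℂ j.1.1 j.1.2) A •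
        lead (mw n) (2 * 5 ^ n) (mex ((φ j.1.1, φ j.1.2) : Fin n × Fin n))
          (u (φ j.1.1, φ j.1.2)) =
        emb (inc φ) (inc fun k => Fin.rev (φ k)) A (adj' (fun k => γ (φ k)) A) := by
      intro A hA
      rw [emb_eq_sum]
      have e1 : ∑ j : TH, (Matrix.entryLinearMap ℂ ℂ j.1.1 j.1.2) A •
          lead (mw n) (2 * 5 ^ n) (mex ((φ j.1.1, φ j.1.2) : Fin n × Fin n))
          (u (φ j.1.1, φ j.1.2)) =
          ∑ j : TH, A j.1.1 j.1.2 • (Matrix.single (φ j.1.1) (φ j.1.2) 1 +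
            (γ (φ j.1.1) / γ (φ j.1.2)) • Matrix.single (Fin.rev (φ j.1.2))
              (Fin.rev (φ j.1.1)) (1 : ℂ)) := by
        refine Finset.sum_congr rfl fun j _ => ?_
        have hj := (Finset.mem_filter.mp j.2).2
        rw [lead_pivot hγ (hV0m (hP _ hj).1) (hdiag _ hj) (hφr _ _) (hP _ hj).2.1]
        rfl
      rw [e1, Finset.sum_coe_sort TH (fun j => A j.1 j.2 • (Matrix.single (φ j.1) (φ j.2) 1 +
            (γ (φ j.1) / γ (φ j.2)) • Matrix.single (Fin.rev (φ j.2))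
              (Fin.rev (φ j.1)) (1 : ℂ))), ← Fintype.sum_prod_type'
              (f := fun k l => A k l • (Matrix.single (φ k) (φ l) 1 +
      (γ (φ k) / γ (φ l)) • Matrix.single (Fin.rev (φ l)) (Fin.rev (φ k)) (1 : ℂ)))]
      refine Finset.sum_subset (Finset.subset_univ _) ?_
      intro j _ hj
      rw [hA j.1 j.2 hj, zero_smul]
    intro A hA B hB D hD
    rw [hsum A hA, hsum B hB, hsum D hD]
    exact Phi_emb (inc_self hφi) (inc_self hψi) (inc_orth hφr)
      (inc_orth fun k l h => hφr l k h.symm) (fun k => hγ (φ k)) A B D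
  have hf := finrank_pat TH
  exact sym_bound hq (pat TH) (by omega) hBW

end Pool.Agent.TH711
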