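import Pool.Agent.TH711.MM.Weights
import Pool.Agent.TH711.MM.Family

/-!
# Spaces of matrices symmetric about the antidiagonal
-/

namespace Pool.Agent.TH711

open Finset Module Pool.Agent.H515R2.MMR Pool.Agent.H53R3

/-- Mirror symmetric matrices. -/
def mirS {n : ℕ} (γ : Fin n → ℂ) : Submodule ℂ (Mt n) where
  carrier := {Y | ∀ i j, γ i * Y i j = γ j * Y (Fin.rev j) (Fin.rev i)}
  add_mem' := fun {A B} hA hB i j => by
    have h1 := hA i j
    have h2 := hB i j
    simp only [Matrix.add_apply, mul_add, h1, h2]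
  zero_mem' := fun i j => by simp
  smul_mem' := fun c A hA i j => by
    have h1 := hA i j
    simp only [Matrix.smul_apply, smul_eq_mul]
    linear_combination c * h1

lemma mirS_ne {n : ℕ} {γ : Fin n → ℂ} (hγ : ∀ i, γ i ≠ 0) {Y : Mt n} (hY : Y ∈ mirS γ)
    (σ : Fin n × Fin n) (h : Y σ.1 σ.2 ≠ 0) : Y (mir' σ).1 (mir' σ).2 ≠ 0 := by
  have h1 := hY σ.1 σ.2
  intro h2
  simp only [mir'] at h2
  rw [h2, mul_zero] at h1
  exact (mul_ne_zero (hγ _) h) h1

/-- Pivots. -/
lemma mirror_pivots {n : ℕ} {γ : Fin n → ℂ} (hγ : ∀ i, γ i ≠ 0) (V : Submodule ℂ (Mt n))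
    (hV : V ≤ mirS γ) :
    ∃ (T : Finset (Fin n × Fin n)) (u : Fin n × Fin n → Mt n),
      2 * finrank ℂ V ≤ T.card + n ∧
      ∀ σ ∈ T, u σ ∈ V ∧ u σ σ.1 σ.2 = 1 ∧ ∀ τ, mex σ < mex τ → u σ τ.1 τ.2 = 0 := by
  classical
  set T : Finset (Fin n × Fin n) := Finset.univ.filter fun σ =>
    ∃ u ∈ V, u σ.1 σ.2 ≠ 0 ∧ ∀ τ, mex σ < mex τ → u τ.1 τ.2 = 0 with hT
  have hex : ∀ σ : Fin n × Fin n, ∃ u : Mt n, σ ∈ T →
      u ∈ V ∧ u σ.1 σ.2 = 1 ∧ ∀ τ, mex σ < mex τ → u τ.1 τ.2 = 0 := by
    intro σ
    by_cases hσ : σ ∈ T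
    · obtain ⟨u, hu, h1, h2⟩ := (Finset.mem_filter.mp hσ).2
      refine ⟨(u σ.1 σ.2)⁻¹ • u, fun _ => ⟨V.smul_mem _ hu, ?_, ?_⟩⟩
      · simp [h1]
      · intro τ hτ
        simp [h2 τ hτ]
    · exact ⟨0, fun h => absurd h hσ⟩
  choose u hu using hex
  refine ⟨T, u, ?_, hu⟩
  have hclosed : ∀ σ ∈ T, mir' σ ∈ T := by
    intro σ hσ
    obtain ⟨v, hv, h1, h2⟩ := (Finset.mem_filter.mp hσ).2
    refine Finset.mem_filter.mpr ⟨Finset.mem_univ _, v, hv, mirS_ne hγ (hV hv) σ h1, ?_⟩
    intro τ hτ
    rw [mex_mir'] at hτ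
    exact h2 τ hτ
  set T' : Finset (Fin n × Fin n) := T.filter fun σ => (σ.1 : ℕ) + σ.2 ≤ n - 1 with hT'
  have h1 : finrank ℂ V ≤ T'.card := by
    let L : V →ₗ[ℂ] (T' → ℂ) :=
      { toFun := fun A σ => (A : Mt n) σ.1.1 σ.1.2
        map_add' := fun A B => by ext σ; simp
        map_smul' := fun c A => by ext σ; simp }
    have hinj : Function.Injective L := by
      rw [← LinearMap.ker_eq_bot, LinearMap.ker_eq_bot']
      rintro ⟨A, hA⟩ h0
      by_contra hne
      have hA0 : A ≠ 0 := fun h => hne (by simp [h])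
      have hex : (Finset.univ.filter fun σ : Fin n × Fin n => A σ.1 σ.2 ≠ 0).Nonempty := by
        by_contra hcon
        rw [Finset.not_nonempty_iff_eq_empty] at hcon
        apply hA0
        ext i j
        by_contra hij
        have : ((i, j) : Fin n × Fin n) ∈
            (Finset.univ.filter fun σ : Fin n × Fin n => A σ.1 σ.2 ≠ 0) := by
          simpa using hij
        rw [hcon] at this
        exact absurd this (Finset.notMem_empty _)
      obtain ⟨σ, hσ, hmax⟩ := Finset.exists_max_image _ mex hex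
      have hAσ := (Finset.mem_filter.mp hσ).2
      have hσT : σ ∈ T := by
        rw [hT, Finset.mem_filter]
        refine ⟨Finset.mem_univ _, A, hA, hAσ, ?_⟩
        intro τ hτ
        by_contra hAτ
        have := hmax τ (by simpa using hAτ)
        omega
      by_cases hle : (σ.1 : ℕ) + σ.2 ≤ n - 1
      · have hσ' : σ ∈ T' := Finset.mem_filter.mpr ⟨hσT, hle⟩
        have := congrFun h0 ⟨σ, hσ'⟩
        exact hAσ (by simpa [L] using this)
      · have hσ' : mir' σ ∈ T' := by
          refine Finset.mem_filter.mpr ⟨hclosed σ hσT, ?_⟩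
          simp only [mir', Fin.val_rev]
          have := σ.1.2
          have := σ.2.2
          omega
        have := congrFun h0 ⟨mir' σ, hσ'⟩
        exact mirS_ne hγ (hV hA) σ hAσ (by simpa [L] using this)
    have := LinearMap.finrank_le_finrank_of_injective hinj
    simpa using this
  have h2 : 2 * T'.card ≤ T.card + n := by
    have hinj : Function.Injective (mir' (n := n)) := fun a b hab => by
      rw [← mir'_mir' a, hab, mir'_mir']
    have e1 : (T'.image mir').card = T'.card := Finset.card_image_of_injective _ hinj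
    have e2 := Finset.card_union_add_card_inter T' (T'.image mir')
    have e3 : (T' ∪ T'.image mir').card ≤ T.card := by
      apply Finset.card_le_card
      intro σ hσ
      rcases Finset.mem_union.mp hσ with h | h
      · exact (Finset.mem_filter.mp h).1
      · obtain ⟨τ, hτ, rfl⟩ := Finset.mem_image.mp h
        exact hclosed τ (Finset.mem_filter.mp hτ).1
    have e4 : (T' ∩ T'.image mir').card ≤ n := by
      have hsub : T' ∩ T'.image mir' ⊆ Finset.univ.image fun i : Fin n => (i, Fin.rev i) := by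
        intro σ hσ
        rw [Finset.mem_inter] at hσ
        obtain ⟨h3, h4⟩ := hσ
        obtain ⟨τ, hτ, rfl⟩ := Finset.mem_image.mp h4
        have h5 := (Finset.mem_filter.mp h3).2
        have h6 := (Finset.mem_filter.mp hτ).2
        simp only [mir', Fin.val_rev] at h5
        have := τ.1.2
        have := τ.2.2
        refine Finset.mem_image.mpr ⟨Fin.rev τ.2, Finset.mem_univ _, ?_⟩
        refine Prod.ext rfl ?_
        apply Fin.ext
        simp only [mir', Fin.val_rev]
        omega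
      refine (Finset.card_le_card hsub).trans (Finset.card_image_le.trans ?_)
      simp
    omega
  omega

/-- Points of the two halves. -/
def pt2 {n : ℕ} (k : Fin (n / 2)) (a : ZMod 2) : Fin n :=
  if a = 0 then ⟨k, by have := k.2; omega⟩ else Fin.rev ⟨k, by have := k.2; omega⟩

lemma pt2_inj {n : ℕ} {k l : Fin (n / 2)} {a b : ZMod 2} (h : pt2 k a = pt2 l b) : k = l := by
  have hk := k.2
  have hl := l.2
  have h1 := congrArg Fin.val h
  unfold pt2 at h1
  apply Fin.ext
  split_ifs at h1 <;> simp only [Fin.val_rev] at h1 <;> omega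

lemma pt2_ne_rev {n : ℕ} (k l : Fin (n / 2)) (x : Fin (n / 2) → ZMod 2) :
    pt2 k (x k) ≠ Fin.rev (pt2 l (x l)) := by
  intro h
  have hk := k.2
  have hl := l.2
  have hkl : k = l := by
    have h1 := congrArg Fin.val h
    rw [Fin.val_rev] at h1
    unfold pt2 at h1
    apply Fin.ext
    split_ifs at h1 <;> simp only [Fin.val_rev] at h1 <;> omega
  subst hkl
  have h1 := congrArg Fin.val h
  rw [Fin.val_rev] at h1
  unfold pt2 at h1
  split_ifs at h1 <;> simp only [Fin.val_rev] at h1 <;> omega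

/-- Averaging over the cube. -/
lemma avg {h : ℕ} (k l : Fin h) (hkl : k ≠ l) (F : ZMod 2 → ZMod 2 → ℕ) :
    4 * ∑ x : Fin h → ZMod 2, F (x k) (x l) =
      Fintype.card (Fin h → ZMod 2) * ∑ a, ∑ b, F a b := by
  have h1 : ∀ a b : ZMod 2, ∑ x : Fin h → ZMod 2, F (x k + a) (x l + b) =
      ∑ x : Fin h → ZMod 2, F (x k) (x l) := by
    intro a b
    refine Fintype.sum_equiv (Equiv.addRight (Pi.single k a + Pi.single l b)) _ _ ?_
    intro x
    simp [hkl, hkl.symm]
  have h2 : ∑ a : ZMod 2, ∑ b : ZMod 2, ∑ x : Fin h → ZMod 2, F (x k + a) (x l + b) =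
      4 * ∑ x : Fin h → ZMod 2, F (x k) (x l) := by
    simp only [h1, Finset.sum_const, Finset.card_univ, ZMod.card, smul_eq_mul]
    ring
  rw [← h2]
  have h3 : ∑ a : ZMod 2, ∑ b : ZMod 2, ∑ x : Fin h → ZMod 2, F (x k + a) (x l + b) =
      ∑ x : Fin h → ZMod 2, ∑ a : ZMod 2, ∑ b : ZMod 2, F (x k + a) (x l + b) := by
    rw [Finset.sum_congr rfl fun a _ => Finset.sum_comm]
    exact Finset.sum_comm
  rw [h3]
  have h4 : ∀ x : Fin h → ZMod 2, ∑ a : ZMod 2, ∑ b : ZMod 2, F (x k + a) (x l + b) =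
      ∑ a, ∑ b, F a b := by
    intro x
    refine Fintype.sum_equiv (Equiv.addLeft (x k)) _ _ fun a => ?_
    exact Fintype.sum_equiv (Equiv.addLeft (x l)) _ _ fun b => rfl
  rw [Finset.sum_congr rfl fun x _ => h4 x]
  simp

lemma exists_transversal {n : ℕ} (T : Finset (Fin n × Fin n)) :
    ∃ x : Fin (n / 2) → ZMod 2, T.card ≤
      4 * (Finset.univ.filter fun p : Fin (n / 2) × Fin (n / 2) =>
        ((pt2 p.1 (x p.1), pt2 p.2 (x p.2)) : Fin n × Fin n) ∈ T).card + 4 * n := by
  classical
  set F : Fin n → Fin n → ℕ := fun i j => if (i, j) ∈ T then 1 else 0 with hF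
  set D : Finset (Fin (n / 2) × Fin (n / 2)) := Finset.univ.filter fun p => p.1 ≠ p.2 with hD
  set G : Finset ((Fin (n / 2) × Fin (n / 2)) × (ZMod 2 × ZMod 2)) :=
    Finset.univ.filter fun p => p.1.1 ≠ p.1.2 ∧
      ((pt2 p.1.1 p.2.1, pt2 p.1.2 p.2.2) : Fin n × Fin n) ∈ T with hG
  have hGc : G.card = ∑ p ∈ D, ∑ a, ∑ b, F (pt2 p.1 a) (pt2 p.2 b) := by
    rw [hG, Finset.card_filter, Fintype.sum_prod_type, hD, Finset.sum_filter]
    refine Finset.sum_congr rfl fun p _ => ?_
    rw [Fintype.sum_prod_type]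
    by_cases h : p.1 = p.2
    · simp [h]
    · simp [h, hF]
  -- most of `T` is covered
  have h1 : T.card ≤ G.card + 4 * n := by
    have hsub : T ⊆ ((G.image fun p => ((pt2 p.1.1 p.2.1, pt2 p.1.2 p.2.2) : Fin n × Fin n)) ∪
        (Finset.univ.image fun i : Fin n => (i, i))) ∪
        ((Finset.univ.image fun i : Fin n => (i, Fin.rev i)) ∪
        ((Finset.univ.filter fun σ : Fin n × Fin n => σ.1 = Fin.rev σ.1) ∪
        (Finset.univ.filter fun σ : Fin n × Fin n => σ.2 = Fin.rev σ.2))) := by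
      rintro ⟨i, j⟩ hσ
      have hcov : ∀ i : Fin n, i ≠ Fin.rev i → ∃ (k : Fin (n / 2)) (a : ZMod 2), i = pt2 k a := by
        intro i hi
        have hi2 := i.2
        by_cases h : (i : ℕ) < n / 2
        · refine ⟨⟨i, h⟩, 0, ?_⟩
          simp [pt2]
        · refine ⟨⟨n - 1 - i, ?_⟩, 1, ?_⟩
          · by_contra hcon
            apply hi
            apply Fin.ext
            rw [Fin.val_rev]
            omega
          · apply Fin.ext
            simp only [pt2, one_ne_zero, if_false, Fin.val_rev]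
            omega
      by_cases hi : i = Fin.rev i
      · exact Finset.mem_union_right _ (Finset.mem_union_right _ (Finset.mem_union_left _
          (Finset.mem_filter.mpr ⟨Finset.mem_univ _, hi⟩)))
      by_cases hj : j = Fin.rev j
      · exact Finset.mem_union_right _ (Finset.mem_union_right _ (Finset.mem_union_right _
          (Finset.mem_filter.mpr ⟨Finset.mem_univ _, hj⟩)))
      obtain ⟨k, a, hk⟩ := hcov i hi
      obtain ⟨l, b, hl⟩ := hcov j hj
      by_cases hkl : k = l
      · have hor : j = i ∨ j = Fin.rev i := by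
          rw [hk, hl, hkl]
          unfold pt2
          by_cases ha : a = 0 <;> by_cases hb : b = 0 <;> simp [ha, hb]
        rcases hor with h | h
        · exact Finset.mem_union_left _ (Finset.mem_union_right _
            (Finset.mem_image.mpr ⟨i, Finset.mem_univ _, by rw [h]⟩))
        · exact Finset.mem_union_right _ (Finset.mem_union_left _
            (Finset.mem_image.mpr ⟨i, Finset.mem_univ _, by rw [h]⟩))
      · refine Finset.mem_union_left _ (Finset.mem_union_left _ (Finset.mem_image.mpr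
          ⟨((k, l), (a, b)), Finset.mem_filter.mpr ⟨Finset.mem_univ _, hkl, ?_⟩, ?_⟩))
        · simp only
          rw [← hk, ← hl]
          exact hσ
        · simp only
          rw [← hk, ← hl]
    have c1 : (G.image fun p => ((pt2 p.1.1 p.2.1, pt2 p.1.2 p.2.2) : Fin n × Fin n)).card ≤
        G.card := Finset.card_image_le
    have c2 : (Finset.univ.image fun i : Fin n => (i, i)).card ≤ n :=
      Finset.card_image_le.trans (by simp)
    have c3 : (Finset.univ.image fun i : Fin n => (i, Fin.rev i)).card ≤ n :=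
      Finset.card_image_le.trans (by simp)
    have hmid : ∀ i j : Fin n, i = Fin.rev i → j = Fin.rev j → i = j := by
      intro i j h h'
      have h2 := congrArg Fin.val h
      have h3 := congrArg Fin.val h'
      rw [Fin.val_rev] at h2 h3
      apply Fin.ext
      have := i.2
      have := j.2
      omega
    have c4 : (Finset.univ.filter fun σ : Fin n × Fin n => σ.1 = Fin.rev σ.1).card ≤ n := by
      have := Finset.card_le_card_of_injOn (s := Finset.univ.filter
        fun σ : Fin n × Fin n => σ.1 = Fin.rev σ.1) (t := (Finset.univ : Finset (Fin n)))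
        (fun σ => σ.2) (fun _ _ => Finset.mem_coe.mpr (Finset.mem_univ _)) (by
          intro σ hσ τ hτ hστ
          have h1 := (Finset.mem_filter.mp (Finset.mem_coe.mp hσ)).2
          have h2 := (Finset.mem_filter.mp (Finset.mem_coe.mp hτ)).2
          exact Prod.ext (hmid _ _ h1 h2) hστ)
      simpa using this
    have c5 : (Finset.univ.filter fun σ : Fin n × Fin n => σ.2 = Fin.rev σ.2).card ≤ n := by
      have := Finset.card_le_card_of_injOn (s := Finset.univ.filter
        fun σ : Fin n × Fin n => σ.2 = Fin.rev σ.2) (t := (Finset.univ : Finset (Fin n)))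
        (fun σ => σ.1) (fun _ _ => Finset.mem_coe.mpr (Finset.mem_univ _)) (by
          intro σ hσ τ hτ hστ
          have h1 := (Finset.mem_filter.mp (Finset.mem_coe.mp hσ)).2
          have h2 := (Finset.mem_filter.mp (Finset.mem_coe.mp hτ)).2
          exact Prod.ext hστ (hmid _ _ h1 h2))
      simpa using this
    refine (Finset.card_le_card hsub).trans ?_
    refine (Finset.card_union_le _ _).trans ?_
    have d1 := Finset.card_union_le
      (G.image fun p => ((pt2 p.1.1 p.2.1, pt2 p.1.2 p.2.2) : Fin n × Fin n))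
      (Finset.univ.image fun i : Fin n => (i, i))
    have d2 := Finset.card_union_le (Finset.univ.image fun i : Fin n => (i, Fin.rev i))
      ((Finset.univ.filter fun σ : Fin n × Fin n => σ.1 = Fin.rev σ.1) ∪
        (Finset.univ.filter fun σ : Fin n × Fin n => σ.2 = Fin.rev σ.2))
    have d3 := Finset.card_union_le (Finset.univ.filter fun σ : Fin n × Fin n => σ.1 = Fin.rev σ.1)
      (Finset.univ.filter fun σ : Fin n × Fin n => σ.2 = Fin.rev σ.2)
    omega
  -- averaging
  set N : (Fin (n / 2) → ZMod 2) → ℕ := fun x =>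
    (Finset.univ.filter fun p : Fin (n / 2) × Fin (n / 2) =>
        ((pt2 p.1 (x p.1), pt2 p.2 (x p.2)) : Fin n × Fin n) ∈ T).card with hN
  suffices h : ∃ x, G.card ≤ 4 * N x by
    obtain ⟨x, hx⟩ := h
    exact ⟨x, by simp only [hN] at hx; omega⟩
  by_contra hcon
  push Not at hcon
  have h2 : ∑ x : Fin (n / 2) → ZMod 2, 4 * N x < ∑ _x : Fin (n / 2) → ZMod 2, G.card :=
    Finset.sum_lt_sum_of_nonempty Finset.univ_nonempty fun x _ => hcon x
  have h3 : ∀ x, ∑ p ∈ D, F (pt2 p.1 (x p.1)) (pt2 p.2 (x p.2)) ≤ N x := by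
    intro x
    simp only [hN, Finset.card_filter]
    refine le_trans (Finset.sum_le_sum_of_subset (Finset.subset_univ D)) ?_
    exact le_rfl
  have h4 : ∑ x : Fin (n / 2) → ZMod 2, 4 * (∑ p ∈ D, F (pt2 p.1 (x p.1)) (pt2 p.2 (x p.2))) =
      ∑ _x : Fin (n / 2) → ZMod 2, G.card := by
    rw [← Finset.mul_sum, Finset.sum_comm, Finset.mul_sum, Finset.sum_const, Finset.card_univ,
      smul_eq_mul, hGc, Finset.mul_sum]
    refine Finset.sum_congr rfl fun p hp => ?_
    exact avg p.1 p.2 (Finset.mem_filter.mp hp).2 (fun a b => F (pt2 p.1 a) (pt2 p.2 b))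
  have h5 : ∑ x : Fin (n / 2) → ZMod 2, 4 * (∑ p ∈ D, F (pt2 p.1 (x p.1)) (pt2 p.2 (x p.2))) ≤
      ∑ x : Fin (n / 2) → ZMod 2, 4 * N x :=
    Finset.sum_le_sum fun x _ => Nat.mul_le_mul_left 4 (h3 x)
  omega

end Pool.Agent.TH711
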