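import Pool.Agent.TH711.MM.MirBound
import Pool.Agent.TH711.MM.Hyper

/-!
# The bound for spaces of selfadjoint matrices
-/

namespace Pool.Agent.TH711

open Finset Module Pool.Agent.H515R2.MMR Pool.Agent.H53R3 Matrix

/-- Conjugation. -/
noncomputable def conj {n : ℕ} (P : Mt n) (hP : IsUnit P.det) : Mt n ≃ₗ[ℂ] Mt n where
  toFun X := P⁻¹ * X * P
  invFun Y := P * Y * P⁻¹
  map_add' X Y := by rw [mul_add, add_mul]
  map_smul' c X := by simp
  left_inv X := by
    show P * (P⁻¹ * X * P) * P⁻¹ = X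
    rw [Matrix.mul_assoc P⁻¹ X P, ← Matrix.mul_assoc P, Matrix.mul_nonsing_inv P hP,
      Matrix.one_mul, Matrix.mul_assoc, Matrix.mul_nonsing_inv P hP, Matrix.mul_one]
  right_inv Y := by
    show P⁻¹ * (P * Y * P⁻¹) * P = Y
    rw [Matrix.mul_assoc P Y, ← Matrix.mul_assoc P⁻¹, Matrix.nonsing_inv_mul P hP,
      Matrix.one_mul, Matrix.mul_assoc, Matrix.nonsing_inv_mul P hP, Matrix.mul_one]

lemma conj_apply {n : ℕ} (P : Mt n) (hP : IsUnit P.det) (X : Mt n) :
    conj P hP X = P⁻¹ * X * P := rfl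

lemma conj_three {n : ℕ} (P : Mt n) (hP : IsUnit P.det) (A B D : Mt n) :
    (conj P hP A * conj P hP B * conj P hP D).trace = (A * B * D).trace := by
  have h1 : P⁻¹ * A * P * (P⁻¹ * B * P) * (P⁻¹ * D * P) = P⁻¹ * (A * B * D) * P := by
    calc P⁻¹ * A * P * (P⁻¹ * B * P) * (P⁻¹ * D * P) =
          P⁻¹ * A * (P * P⁻¹) * B * (P * P⁻¹) * D * P := by simp only [Matrix.mul_assoc]
      _ = _ := by rw [Matrix.mul_nonsing_inv P hP]; simp only [Matrix.mul_one, Matrix.mul_assoc]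
  simp only [conj_apply]
  rw [h1, Matrix.trace_mul_comm, ← Matrix.mul_assoc, Matrix.mul_nonsing_inv P hP, Matrix.one_mul]

lemma Phi_conj {n : ℕ} (α β : ℂ) (P : Mt n) (hP : IsUnit P.det) (A B D : Mt n) :
    Phi α β (conj P hP A) (conj P hP B) (conj P hP D) = Phi α β A B D := by
  unfold Phi
  rw [conj_three, conj_three]

lemma BRank.conj {n R : ℕ} {α β : ℂ} {V : Submodule ℂ (Mt n)} (P : Mt n) (hP : IsUnit P.det)
    (h : BRank α β V V V R) :
    BRank α β (V.map (conj P hP).toLinearMap) (V.map (conj P hP).toLinearMap)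
      (V.map (conj P hP).toLinearMap) R := by
  obtain ⟨e, f, g, k, H⟩ := h
  refine ⟨e, fun t => (f t).comp (TH711.conj P hP).symm.toLinearMap,
    fun t => (g t).comp (TH711.conj P hP).symm.toLinearMap,
    fun t => (k t).comp (TH711.conj P hP).symm.toLinearMap, ?_⟩
  rintro _ ⟨A, hA, rfl⟩ _ ⟨B, hB, rfl⟩ _ ⟨D, hD, rfl⟩
  obtain ⟨E, hE⟩ := H A hA B hB D hD
  refine ⟨E, ?_⟩
  simp only [LinearMap.comp_apply, LinearEquiv.coe_coe, LinearEquiv.symm_apply_apply, Phi_conj]
  exact hE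

/-- The space of matrices selfadjoint for a bilinear form. -/
def selfAdj {n : ℕ} (M : Mt n) : Submodule ℂ (Mt n) where
  carrier := {X | Xᵀ * M = M * X}
  add_mem' := fun {A B} hA hB => by
    show (A + B)ᵀ * M = M * (A + B)
    have h1 : Aᵀ * M = M * A := hA
    have h2 : Bᵀ * M = M * B := hB
    rw [Matrix.transpose_add, add_mul, mul_add, h1, h2]
  zero_mem' := by simp
  smul_mem' := fun c A hA => by
    have h1 : Aᵀ * M = M * A := hA
    show (c • A)ᵀ * M = M * (c • A)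
    rw [Matrix.transpose_smul, Matrix.smul_mul, Matrix.mul_smul, h1]

/-- A hyperbolic base change. -/
lemma exists_antidiag {n : ℕ} (M : Mt n) (hM : M.det ≠ 0) (hs : Mᵀ = M ∨ Mᵀ = -M) :
    ∃ P : Mt n, IsUnit P.det ∧ ∀ i j, (Pᵀ * M * P) i j ≠ 0 ↔ j = Fin.rev i := by
  classical
  obtain ⟨s, hs1, hs2⟩ : ∃ s : ℂ, (s = 1 ∨ s = -1) ∧ Mᵀ = s • M := by
    rcases hs with h | h
    · exact ⟨1, Or.inl rfl, by rw [one_smul]; exact h⟩
    · exact ⟨-1, Or.inr rfl, by rw [h]; simp⟩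
  obtain ⟨f, hf⟩ := exists_hyperbolic_basis hs1 n (Fin n → ℂ) (Matrix.toLinearMap₂' ℂ M)
    (by simp) (by
      intro x y
      rw [Matrix.toLinearMap₂'_apply', Matrix.toLinearMap₂'_apply', Matrix.dotProduct_mulVec,
        ← Matrix.mulVec_transpose, hs2, Matrix.smul_mulVec, smul_dotProduct, dotProduct_comm,
        smul_eq_mul]) (by
      intro x hx
      apply Matrix.eq_zero_of_vecMul_eq_zero hM
      funext j
      have h1 := hx (Pi.single j 1)
      rw [Matrix.toLinearMap₂'_apply', Matrix.dotProduct_mulVec] at h1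
      simpa using h1)
  set P : Mt n := fun i j => f j i with hP
  have hG : ∀ i j, (Pᵀ * M * P) i j = Matrix.toLinearMap₂' ℂ M (f i) (f j) := by
    intro i j
    rw [Matrix.toLinearMap₂'_apply', Matrix.mul_assoc, Matrix.mul_apply']
    rfl
  have hG2 : ∀ i j, (Pᵀ * M * P) i j ≠ 0 ↔ j = Fin.rev i := fun i j => by rw [hG]; exact hf i j
  refine ⟨P, ?_, hG2⟩
  set G := Pᵀ * M * P with hGdef
  obtain ⟨G', hG'⟩ : ∃ G' : Mt n, ∀ a b, G' a b = if b = Fin.rev a then (G b a)⁻¹ else 0 :=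
    ⟨fun a b => if b = Fin.rev a then (G b a)⁻¹ else 0, fun a b => rfl⟩
  have h1 : G * G' = 1 := by
    ext i k
    rw [Matrix.mul_apply, Finset.sum_eq_single (Fin.rev i), hG']
    · rw [Fin.rev_rev, Matrix.one_apply]
      by_cases hik : i = k
      · subst hik
        rw [if_pos rfl, if_pos rfl]
        exact mul_inv_cancel₀ ((hG2 i _).mpr rfl)
      · rw [if_neg hik, if_neg (fun h => hik h.symm), mul_zero]
    · intro j _ hj
      have : G i j = 0 := by
        by_contra hcon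
        exact hj ((hG2 i j).mp hcon)
      rw [this, zero_mul]
    · intro h; exact absurd (Finset.mem_univ _) h
  have h2 := congrArg Matrix.det h1
  rw [Matrix.det_mul, hGdef, Matrix.det_mul, Matrix.det_one] at h2
  exact isUnit_iff_ne_zero.mpr fun h0 => by rw [h0] at h2; simp at h2

/-- **Spaces of selfadjoint matrices.** -/
theorem selfAdj_bound {n q R : ℕ} (hq : 1 ≤ q) (M : Mt n) (hM : M.det ≠ 0)
    (hs : Mᵀ = M ∨ Mᵀ = -M) (V : Submodule ℂ (Mt n)) (hV : V ≤ selfAdj M)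
    (hdim : n ^ 2 + (6 * q + 18) * n < 4 * finrank ℂ V) (HB : BRank 1 1 V V V R) :
    (q : ℝ) ^ omega ≤ R := by
  classical
  obtain ⟨P, hP, hG⟩ := exists_antidiag M hM hs
  set G := Pᵀ * M * P with hGdef
  have hGz : ∀ i j, j ≠ Fin.rev i → G i j = 0 := fun i j h => by
    by_contra hcon
    exact h ((hG i j).mp hcon)
  have hfin : finrank ℂ (V.map (conj P hP).toLinearMap) = finrank ℂ V :=
    LinearEquiv.finrank_map_eq (conj P hP) V
  refine mir_bound hq (γ := fun i => G (Fin.rev i) i)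
    (fun i => (hG _ _).mpr (Fin.rev_rev i).symm) (V.map (conj P hP).toLinearMap) ?_
    (by rw [hfin]; exact hdim) (BRank.conj P hP HB)
  rintro _ ⟨X, hX, rfl⟩
  have hX' : Xᵀ * M = M * X := hV hX
  set Y := conj P hP X with hY
  have hYG : Yᵀ * G = G * Y := by
    rw [hY, conj_apply, hGdef]
    have e1 : (P⁻¹ * X * P)ᵀ * (Pᵀ * M * P) = Pᵀ * (Xᵀ * M) * P := by
      have e0 : (P⁻¹)ᵀ * Pᵀ = 1 := by
        rw [← Matrix.transpose_mul, Matrix.mul_nonsing_inv P hP, Matrix.transpose_one]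
      calc (P⁻¹ * X * P)ᵀ * (Pᵀ * M * P) = Pᵀ * Xᵀ * ((P⁻¹)ᵀ * Pᵀ) * M * P := by
            rw [Matrix.transpose_mul, Matrix.transpose_mul]
            simp only [Matrix.mul_assoc]
        _ = _ := by rw [e0]; simp only [Matrix.mul_one, Matrix.mul_assoc]
    have e2 : Pᵀ * M * P * (P⁻¹ * X * P) = Pᵀ * (M * X) * P := by
      calc Pᵀ * M * P * (P⁻¹ * X * P) = Pᵀ * M * (P * P⁻¹) * X * P := by
            simp only [Matrix.mul_assoc]
        _ = _ := by
            rw [Matrix.mul_nonsing_inv P hP]; simp only [Matrix.mul_one, Matrix.mul_assoc]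
    rw [e1, e2, hX']
  intro i j
  have h1 := congrFun (congrFun hYG (Fin.rev i)) j
  rw [Matrix.mul_apply, Matrix.mul_apply, Finset.sum_eq_single (Fin.rev j),
    Finset.sum_eq_single i] at h1
  · show G (Fin.rev i) i * Y i j = G (Fin.rev j) j * Y (Fin.rev j) (Fin.rev i)
    rw [← h1, Matrix.transpose_apply, mul_comm]
  · intro k _ hk
    rw [hGz _ _ (by rw [Fin.rev_rev]; exact hk), zero_mul]
  · intro h; exact absurd (Finset.mem_univ _) h
  · intro k _ hk
    rw [hGz _ _ (fun h => hk (by rw [h, Fin.rev_rev])), mul_zero]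
  · intro h; exact absurd (Finset.mem_univ _) h

end Pool.Agent.TH711
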