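import Pool.Agent.TH711.MM.DetBound
import Pool.Agent.TH711.MM.SelfAdj
import Pool.Agent.TH711.MM.ConstDet

/-!
# Determinants and Pfaffians on large spaces of symmetric or of skew-symmetric matrices
-/

namespace Pool.Agent.TH711

open Pool.Agent.H53R3 Module Filter Pool.Agent.H515R2.MMR Matrix

variable {n m : ℕ} (A₀ : Mt n) (b : Fin m → Mt n)

/-- All matrices of the affine space are symmetric, or all are skew-symmetric. -/
def SymOrSkew : Prop :=
  (A₀ᵀ = A₀ ∧ ∀ i, (b i)ᵀ = b i) ∨ (A₀ᵀ = -A₀ ∧ ∀ i, (b i)ᵀ = -b i)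

lemma selfAdj_of_sym {M B : Mt n} {s : ℂ} (hs : s * s = 1) (hM : Mᵀ = s • M) (hB : Bᵀ = s • B) :
    M.adjugate * B ∈ selfAdj M := by
  show (M.adjugate * B)ᵀ * M = M * (M.adjugate * B)
  have h1 : (M.adjugate)ᵀ * M = s • M.det • (1 : Mt n) := by
    calc (M.adjugate)ᵀ * M = (Mᵀ * M.adjugate)ᵀ := by
          rw [Matrix.transpose_mul, Matrix.transpose_transpose]
      _ = _ := by
          rw [hM, Matrix.smul_mul, Matrix.mul_adjugate, Matrix.transpose_smul,
            Matrix.transpose_smul, Matrix.transpose_one]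
  rw [Matrix.transpose_mul, Matrix.mul_assoc, h1, hB, ← Matrix.mul_assoc, Matrix.mul_adjugate]
  simp only [Matrix.smul_mul, Matrix.mul_smul, Matrix.mul_one, Matrix.one_mul, smul_smul]
  congr 1
  linear_combination M.det * hs

/-- **Functions of the determinant, symmetric case.** -/
theorem symdet_bound {q L : ℕ} (hq : 1 ≤ q) (hb : LinearIndependent ℂ b)
    (hsym : SymOrSkew A₀ b)
    (hdet : (genP A₀ b).det ≠ 0) (hdim : n ^ 2 + (6 * q + 18) * n + 4 < 4 * m)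
    (z : RF m) (hz : IsAlgebraic (IntermediateField.adjoin ℂ {(genK A₀ b).det}) z)
    (hzc : ∀ c : ℂ, z ≠ algebraMap ℂ (RF m) c)
    (hL : SLPComputes (xv (m := m)) L {z}) : (q : ℝ) ^ omega ≤ 6 * L := by
  obtain ⟨a, y, p, q', hM, hβ, c₁, c₂, H⟩ := gen_decomposition A₀ b hb hdet z hz hzc hL
  set M : Mt n := A₀ + ∑ i, a i • b i with hMdef
  obtain ⟨s, hs1, hs2, hsM, hsb⟩ : ∃ s : ℂ, (s * s = 1) ∧ (Mᵀ = M ∨ Mᵀ = -M) ∧ Mᵀ = s • M ∧
      ∀ i, (b i)ᵀ = s • b i := by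
    rcases hsym with ⟨h1, h2⟩ | ⟨h1, h2⟩
    · have h3 : Mᵀ = M := by
        rw [hMdef, Matrix.transpose_add, h1, Matrix.transpose_sum]
        congr 1
        exact Finset.sum_congr rfl fun i _ => by rw [Matrix.transpose_smul, h2]
      exact ⟨1, by norm_num, Or.inl h3, by rw [one_smul]; exact h3, fun i => by
        rw [one_smul]; exact h2 i⟩
    · have h3 : Mᵀ = -M := by
        rw [hMdef, Matrix.transpose_add, h1, Matrix.transpose_sum, neg_add, ← Finset.sum_neg_distrib]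
        congr 1
        exact Finset.sum_congr rfl fun i _ => by rw [Matrix.transpose_smul, h2, smul_neg]
      exact ⟨-1, by norm_num, Or.inr h3, by rw [neg_one_smul]; exact h3, fun i => by
        rw [neg_one_smul]; exact h2 i⟩
  set V := Submodule.span ℂ (Set.range fun i => M.adjugate * b i) with hV
  have hVs : V ≤ selfAdj M := by
    rw [hV, Submodule.span_le]
    rintro _ ⟨i, rfl⟩
    exact selfAdj_of_sym hs1 hsM (hsb i)
  have hfr : finrank ℂ V = m := by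
    rw [hV, finrank_span_eq_card hβ, Fintype.card_fin]
  have h1 := finrank_trZero V
  rw [hfr] at h1
  have hB : BRank 1 1 (V ⊓ trZero n) (V ⊓ trZero n) (V ⊓ trZero n) (6 * L) := by
    refine bRank_of_F3 _ y p q' fun A hA B hB D hD => ?_
    rw [← H A hA.1 B hB.1 D hD.1]
    have hA0 := mem_trZero.mp hA.2
    have hB0 := mem_trZero.mp hB.2
    have hD0 := mem_trZero.mp hD.2
    simp only [gt, Phi, hA0, hB0, hD0]
    ring
  have h2 := selfAdj_bound hq M hM hs2 _ (inf_le_left.trans hVs) (by omega) hB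
  push_cast at h2
  exact h2

/-- Uniform asymptotic lower bound. -/
theorem symdet_bound_asymp {ε : ℝ} (hε : 0 < ε) : ∃ c : ℝ, 0 < c ∧ ∃ n₀ : ℕ, ∀ n : ℕ, n₀ ≤ n →
    ∀ (m : ℕ) (A₀ : Mt n) (b : Fin m → Mt n), LinearIndependent ℂ b → SymOrSkew A₀ b →
    (genP A₀ b).det ≠ 0 →
    (1 / 4 + ε) * (n : ℝ) ^ 2 ≤ m → ∀ L : ℕ, ComputesFunctionOfDet A₀ b L →
    c * (n : ℝ) ^ omega ≤ L := by
  obtain ⟨n₂, hn₂⟩ := exists_nat_gt (20 / ε)
  refine ⟨(ε / 3) ^ omega / 6, by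
    have := Real.rpow_pos_of_pos (show 0 < ε / 3 by positivity) omega
    positivity, n₂ + 1, ?_⟩
  intro n hn m A₀ b hb hsym hdet hm L hL
  obtain ⟨z, hz, hzc, hL⟩ := hL
  have h2' : (n₂ : ℝ) + 1 ≤ n := by exact_mod_cast hn
  have hn8 : 20 / ε < n := by linarith
  have hεn : 20 < ε * n := by
    rw [div_lt_iff₀ hε] at hn8
    linarith
  have hn1 : (1 : ℝ) ≤ n := by
    have : (0 : ℝ) ≤ n₂ := Nat.cast_nonneg _
    linarith
  have hn0 : (0 : ℝ) < n := by linarith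
  set q : ℕ := ⌈ε * n / 3⌉₊ with hq
  have hq1 : 1 ≤ q := Nat.one_le_iff_ne_zero.mpr (Nat.ceil_pos.mpr (by positivity)).ne'
  have hqle : (q : ℝ) < ε * n / 3 + 1 := Nat.ceil_lt_add_one (by positivity)
  have hqge : ε * n / 3 ≤ q := Nat.le_ceil _
  have hdim : n ^ 2 + (6 * q + 18) * n + 4 < 4 * m := by
    have : ((n ^ 2 + (6 * q + 18) * n + 4 : ℕ) : ℝ) < ((4 * m : ℕ) : ℝ) := by
      push_cast
      have h3 : (6 * (q : ℝ) + 18) * n < (2 * (ε * n) + 24) * n := by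
        apply mul_lt_mul_of_pos_right _ hn0
        linarith
      nlinarith
    exact_mod_cast this
  have hb' := symdet_bound A₀ b hq1 hb hsym hdet hdim z hz hzc hL
  have h4 : (ε / 3) ^ omega * (n : ℝ) ^ omega ≤ (q : ℝ) ^ omega := by
    rw [← Real.mul_rpow (by positivity) (by positivity)]
    refine Real.rpow_le_rpow (by positivity) ?_ omega_nonneg
    linarith
  linarith

/-- Cheap functions of the determinant on one family of spaces bound `ω`. -/
theorem omega_le_of_symdet {ε τ C : ℝ} (hε : 0 < ε)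
    (H : ∀ N : ℕ, ∃ n : ℕ, N ≤ n ∧ ∃ (m : ℕ) (A₀ : Mt n) (b : Fin m → Mt n) (L : ℕ),
      LinearIndependent ℂ b ∧ SymOrSkew A₀ b ∧ (genP A₀ b).det ≠ 0 ∧
      (1 / 4 + ε) * (n : ℝ) ^ 2 ≤ m ∧
      ComputesFunctionOfDet A₀ b L ∧ (L : ℝ) ≤ C * (n : ℝ) ^ τ) : omega ≤ τ := by
  obtain ⟨c, hc, n₀, hlow⟩ := symdet_bound_asymp hε
  by_contra hcon
  push Not at hcon
  have t := (tendsto_rpow_atTop (y := omega - τ) (by linarith)).comp
    (tendsto_natCast_atTop_atTop (R := ℝ))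
  obtain ⟨N, hN⟩ := eventually_atTop.mp (t.eventually (eventually_gt_atTop (C / c)))
  obtain ⟨n, hn, m, A₀, b, L, hb, hsym, hdet, hm, hL, hLe⟩ := H (max (max N n₀) 1)
  have hnN : N ≤ n := (le_max_left _ _).trans ((le_max_left _ _).trans hn)
  have hnn₀ : n₀ ≤ n := (le_max_right _ _).trans ((le_max_left _ _).trans hn)
  have hn1 : 1 ≤ n := (le_max_right _ _).trans hn
  have hn0 : (0 : ℝ) < n := by exact_mod_cast hn1
  have h1 := hN n hnN
  simp only [Function.comp] at h1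
  have h2 := (hlow n hnn₀ m A₀ b hb hsym hdet hm L hL).trans hLe
  have h3 : (n : ℝ) ^ omega = (n : ℝ) ^ (omega - τ) * (n : ℝ) ^ τ := by
    rw [← Real.rpow_add hn0]; congr 1; ring
  have h4 : 0 < (n : ℝ) ^ τ := Real.rpow_pos_of_pos hn0 _
  rw [h3, ← mul_assoc] at h2
  have h5 : c * (n : ℝ) ^ (omega - τ) ≤ C := le_of_mul_le_mul_right h2 h4
  rw [div_lt_iff₀ hc] at h1
  linarith

lemma linearIndependent_adjugate_mul {M : Mt n} (hM : M.det ≠ 0) {b : Fin m → Mt n}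
    (hb : LinearIndependent ℂ b) : LinearIndependent ℂ (fun i => M.adjugate * b i) := by
  have hker : LinearMap.ker (LinearMap.mulLeft ℂ M.adjugate) = ⊥ := by
    rw [LinearMap.ker_eq_bot']
    intro A hA
    have h1 : M * (M.adjugate * A) = 0 := by
      rw [LinearMap.mulLeft_apply] at hA
      rw [hA, mul_zero]
    rw [← mul_assoc, Matrix.mul_adjugate, Matrix.smul_mul, one_mul] at h1
    exact (smul_eq_zero.mp h1).resolve_left hM
  exact hb.map' (LinearMap.mulLeft ℂ M.adjugate) hker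

lemma bRank_zero (V : Submodule ℂ (Mt n))
    (h : ∀ A ∈ V, ∀ B ∈ V, ∀ D ∈ V, Phi 1 1 A B D = 0) : BRank 1 1 V V V 0 := by
  refine ⟨0, fun t => t.elim0, fun t => t.elim0, fun t => t.elim0, fun A hA B hB D hD => ⟨0, ?_⟩⟩
  rw [h A hA B hB D hD]
  simp

/-- The determinant is not constant on such a space. -/
theorem symdet_nonconstant {q : ℕ} (hq : 1 ≤ q) (hb : LinearIndependent ℂ b)
    (hsym : SymOrSkew A₀ b)
    (hdet : (genP A₀ b).det ≠ 0) (hdim : n ^ 2 + (6 * q + 18) * n + 4 < 4 * m) (c : ℂ) :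
    (genK A₀ b).det ≠ algebraMap ℂ (RF m) c := by
  intro hc
  obtain ⟨h1, h2⟩ := phi_zero_of_det_const A₀ b hdet c hc
  set V := Submodule.span ℂ (Set.range fun i => A₀.adjugate * b i) with hV
  obtain ⟨s, hs1, hs2, hsM, hsb⟩ : ∃ s : ℂ, (s * s = 1) ∧ (A₀ᵀ = A₀ ∨ A₀ᵀ = -A₀) ∧ A₀ᵀ = s • A₀ ∧
      ∀ i, (b i)ᵀ = s • b i := by
    rcases hsym with ⟨h1, h2⟩ | ⟨h1, h2⟩
    · exact ⟨1, by norm_num, Or.inl h1, by rw [one_smul]; exact h1, fun i => by
        rw [one_smul]; exact h2 i⟩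
    · exact ⟨-1, by norm_num, Or.inr h1, by rw [neg_one_smul]; exact h1, fun i => by
        rw [neg_one_smul]; exact h2 i⟩
  have hVs : V ≤ selfAdj A₀ := by
    rw [hV, Submodule.span_le]
    rintro _ ⟨i, rfl⟩
    exact selfAdj_of_sym hs1 hsM (hsb i)
  have hfr : finrank ℂ V = m := by
    rw [hV, finrank_span_eq_card (linearIndependent_adjugate_mul h1 hb), Fintype.card_fin]
  have h3 := selfAdj_bound hq A₀ h1 hs2 V hVs (by rw [hfr]; omega) (bRank_zero V h2)
  have h4 : (0 : ℝ) < (q : ℝ) ^ omega := Real.rpow_pos_of_pos (by exact_mod_cast hq) _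
  simp at h3
  linarith

/-- **Pfaffians.** -/
theorem pfaffian_bound {q L : ℕ} (hq : 1 ≤ q) (hb : LinearIndependent ℂ b)
    (hsym : SymOrSkew A₀ b)
    (hdet : (genP A₀ b).det ≠ 0) (hdim : n ^ 2 + (6 * q + 18) * n + 4 < 4 * m)
    (z : RF m) (hz : z ^ 2 = (genK A₀ b).det)
    (hL : SLPComputes (xv (m := m)) L {z}) : (q : ℝ) ^ omega ≤ 6 * L := by
  refine symdet_bound A₀ b hq hb hsym hdet hdim z ?_ ?_ hL
  · refine ⟨Polynomial.X ^ 2 - Polynomial.C (⟨(genK A₀ b).det,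
      IntermediateField.subset_adjoin ℂ _ rfl⟩ :
        IntermediateField.adjoin ℂ {(genK A₀ b).det}), ?_, ?_⟩
    · exact Polynomial.X_pow_sub_C_ne_zero (by norm_num) _
    · rw [map_sub, map_pow, Polynomial.aeval_X, Polynomial.aeval_C, hz]
      exact sub_self _
  · intro c hc
    refine symdet_nonconstant A₀ b hq hb hsym hdet hdim (c ^ 2) ?_
    rw [← hz, hc, map_pow]

end Pool.Agent.TH711
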