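import Pool.Agent.TH711.MM.DetBound

/-!
# Upper triangular matrices: cheap determinants at density `1/2`
-/

namespace Pool.Agent.TH711

open Pool.Agent.H53R3 Module MvPolynomial Pool.Agent.H515R2.MMR

variable {n : ℕ}

/-- The positions on and above the diagonal. -/
abbrev TP (n : ℕ) := {s : Fin n × Fin n // s.1 ≤ s.2}

/-- The number of these positions. -/
abbrev nTP (n : ℕ) : ℕ := Fintype.card (TP n)

lemma two_nTP (n : ℕ) : 2 * nTP n = n * (n + 1) := by
  classical
  have h1 : nTP n = ∑ i : Fin n, (n - i) := by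
    rw [nTP, Fintype.card_subtype, Finset.card_filter, Fintype.sum_prod_type]
    refine Finset.sum_congr rfl fun i _ => ?_
    rw [← Finset.card_filter]
    have : (Finset.univ.filter fun j : Fin n => (i, j).1 ≤ (i, j).2) = Finset.Ici i := by
      ext j; simp
    rw [this, Fin.card_Ici]
  rw [h1, Fin.sum_univ_eq_sum_range (fun i => n - i) n, ← Finset.sum_range_reflect]
  have h2 : ∀ j ∈ Finset.range n, n - (n - 1 - j) = j + 1 := by
    intro j hj
    rw [Finset.mem_range] at hj
    omega
  rw [Finset.sum_congr rfl h2, Finset.sum_add_distrib]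
  have h3 := Finset.sum_range_id_mul_two n
  simp only [Finset.sum_const, Finset.card_range, smul_eq_mul, mul_one]
  rcases Nat.eq_zero_or_pos n with rfl | hn
  · simp
  · obtain ⟨k, rfl⟩ : ∃ k, n = k + 1 := ⟨n - 1, by omega⟩
    simp only [Nat.add_sub_cancel] at h3
    nlinarith

/-- The enumeration of the positions. -/
noncomputable def eT (n : ℕ) : TP n ≃ Fin (nTP n) := Fintype.equivFin (TP n)

/-- The matrix units of the positions on and above the diagonal. -/
noncomputable def bT (n : ℕ) (t : Fin (nTP n)) : Mt n :=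
  Matrix.single ((eT n).symm t).1.1 ((eT n).symm t).1.2 1

lemma bT_indep : LinearIndependent ℂ (bT n) := by
  classical
  have h1 : LinearIndependent ℂ (fun s : TP n => (Matrix.single s.1.1 s.1.2 1 : Mt n)) := by
    rw [Fintype.linearIndependent_iff]
    intro g hg s
    have h1 := congrFun (congrFun hg s.1.1) s.1.2
    simp only [Matrix.sum_apply, Matrix.smul_apply, smul_eq_mul, Matrix.zero_apply] at h1
    rw [Finset.sum_eq_single s] at h1
    · simpa using h1
    · intro t _ ht
      have : ¬ (t.1.1 = s.1.1 ∧ t.1.2 = s.1.2) := fun h => ht (Subtype.ext (Prod.ext h.1 h.2))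
      rw [Matrix.single_apply, if_neg this, mul_zero]
    · simp
  exact h1.comp _ (eT n).symm.injective

lemma genK_tri (i j : Fin n) : genK 0 (bT n) i j =
    if h : i ≤ j then xv (eT n ⟨(i, j), h⟩) else 0 := by
  classical
  have h1 : genK 0 (bT n) = ∑ s : TP n, (xv (eT n s)) • ((Matrix.single s.1.1 s.1.2 1 : Mt n)).map
      (algebraMap ℂ (RF (nTP n))) := by
    refine Matrix.ext fun k l => ?_
    simp only [genK, genP, Matrix.map_apply, Matrix.add_apply, Matrix.zero_apply, map_zero,
      zero_add, Matrix.sum_apply, Matrix.smul_apply, smul_eq_mul, map_sum, map_mul]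
    rw [← Equiv.sum_comp (eT n)]
    refine Finset.sum_congr rfl fun o _ => ?_
    unfold bT
    rw [Equiv.symm_apply_apply]
    have e1 : ∀ c : ℂ, algebraMap (Pl (nTP n)) (RF (nTP n)) (C c) =
        algebraMap ℂ (RF (nTP n)) c := fun c =>
      (IsScalarTower.algebraMap_apply ℂ (Pl (nTP n)) (RF (nTP n)) c).symm
    rw [e1]
    rfl
  rw [h1, Matrix.sum_apply]
  by_cases h : i ≤ j
  · rw [dif_pos h, Finset.sum_eq_single (⟨(i, j), h⟩ : TP n)]
    · rw [Matrix.smul_apply, Matrix.map_apply]
      simp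
    · intro s _ hs
      have : ¬ (s.1.1 = i ∧ s.1.2 = j) := fun h' => hs (Subtype.ext (Prod.ext h'.1 h'.2))
      rw [Matrix.smul_apply, Matrix.map_apply, Matrix.single_apply, if_neg this, map_zero,
        smul_zero]
    · simp
  · rw [dif_neg h]
    refine Finset.sum_eq_zero fun s _ => ?_
    have : ¬ (s.1.1 = i ∧ s.1.2 = j) := by
      rintro ⟨rfl, rfl⟩
      exact h s.2
    rw [Matrix.smul_apply, Matrix.map_apply, Matrix.single_apply, if_neg this, map_zero,
      smul_zero]

lemma det_tri : (genK 0 (bT n)).det = ∏ i : Fin n, xv (eT n ⟨(i, i), le_rfl⟩) := by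
  rw [Matrix.det_of_isUpperTriangular]
  · refine Finset.prod_congr rfl fun i _ => ?_
    rw [genK_tri, dif_pos le_rfl]
  · intro i j hij
    rw [genK_tri, dif_neg]
    exact not_le.mpr hij

lemma xv_ne_zero {m : ℕ} (i : Fin m) : (xv i : RF m) ≠ 0 := by
  intro h
  have hinj : Function.Injective (algebraMap (Pl m) (RF m)) := IsFractionRing.injective _ _
  exact X_ne_zero (R := ℂ) i (hinj (by rw [map_zero]; exact h))

lemma tri_det_ne : (genP 0 (bT n)).det ≠ 0 := by
  intro h
  have h1 : (genK 0 (bT n)).det = 0 := by rw [det_genK, h, map_zero]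
  rw [det_tri] at h1
  exact (Finset.prod_ne_zero_iff.mpr fun i _ => xv_ne_zero _) h1

/-- The determinant of an upper triangular matrix takes `n` multiplications. -/
lemma slp_tri (hn : 1 ≤ n) : SLPComputes (xv (m := nTP n)) n {(genK 0 (bT n)).det} := by
  classical
  let d : ℕ → RF (nTP n) := fun l => if h : l < n then xv (eT n ⟨(⟨l, h⟩, ⟨l, h⟩), le_rfl⟩) else 1
  let g : ℕ → RF (nTP n) := fun l => ∏ k ∈ Finset.range (l + 1), d k
  refine ⟨g, ?_, ?_⟩
  · intro l hl
    have hd : d l ∈ affS (xv (m := nTP n)) g l := by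
      have : d l = xv (eT n ⟨(⟨l, hl⟩, ⟨l, hl⟩), le_rfl⟩) := dif_pos hl
      rw [this]
      exact Submodule.subset_span (Or.inl (Or.inr ⟨_, rfl⟩))
    rcases Nat.eq_zero_or_pos l with h0 | h0
    · subst h0
      refine ⟨1, Submodule.subset_span (Or.inl (Or.inl rfl)), d 0, hd, Or.inl ?_⟩
      simp [g]
    · refine ⟨g (l - 1), Submodule.subset_span (Or.inr ⟨l - 1, by
        show l - 1 < l
        omega, rfl⟩), d l, hd, Or.inl ?_⟩
      show ∏ k ∈ Finset.range (l + 1), d k = (∏ k ∈ Finset.range (l - 1 + 1), d k) * d l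
      rw [show l - 1 + 1 = l by omega, Finset.prod_range_succ]
  · rintro f rfl
    have h1 : (genK 0 (bT n)).det = g (n - 1) := by
      show _ = ∏ k ∈ Finset.range (n - 1 + 1), d k
      rw [det_tri, show n - 1 + 1 = n by omega, Finset.prod_range]
      refine Finset.prod_congr rfl fun i _ => ?_
      have h2 : d (i : ℕ) = xv (eT n ⟨(⟨(i : ℕ), i.2⟩, ⟨(i : ℕ), i.2⟩), le_rfl⟩) := dif_pos i.2
      exact h2.symm
    rw [h1]
    exact Submodule.subset_span (Or.inr ⟨n - 1, by
      show n - 1 < n
      omega, rfl⟩)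

end Pool.Agent.TH711
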