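import Pool.Agent.TH711.MM.SymDet
import Pool.Agent.TH711.MM.Tri

/-!
# Cheap determinants of symmetric and skew-symmetric matrices at density `1/4`
-/

namespace Pool.Agent.TH711

open Pool.Agent.H53R3 Module MvPolynomial Pool.Agent.H515R2.MMR Matrix

/-- A basis matrix: for `i ≤ j` in the off-diagonal blocks, for `j < i` in the upper left block. -/
noncomputable def blkQ {h : ℕ} (s : ℂ) (p : Fin h × Fin h) :
    Matrix (Fin h ⊕ Fin h) (Fin h ⊕ Fin h) ℂ :=
  if p.1 ≤ p.2 then Matrix.fromBlocks 0 (Matrix.single p.1 p.2 1) (s • Matrix.single p.2 p.1 1) 0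
  else Matrix.fromBlocks (Matrix.single p.1 p.2 1 + s • Matrix.single p.2 p.1 1) 0 0 0

/-- The basis. -/
noncomputable def bQ (h : ℕ) (s : ℂ) (t : Fin (h * h)) : Mt (h + h) :=
  (blkQ s (finProdFinEquiv.symm t)).submatrix finSumFinEquiv.symm finSumFinEquiv.symm

variable {h : ℕ} {s : ℂ}

lemma blkQ_transpose (hs : s * s = 1) (p : Fin h × Fin h) : (blkQ s p)ᵀ = s • blkQ s p := by
  unfold blkQ
  split_ifs with hp
  · rw [Matrix.fromBlocks_transpose, Matrix.fromBlocks_smul]
    simp only [Matrix.transpose_smul, Matrix.transpose_zero, Matrix.transpose_single, smul_zero,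
      smul_smul, hs, one_smul]
  · rw [Matrix.fromBlocks_transpose, Matrix.fromBlocks_smul]
    simp only [Matrix.transpose_add, Matrix.transpose_smul, Matrix.transpose_zero,
      Matrix.transpose_single, smul_zero, smul_add, smul_smul, hs, one_smul]
    rw [add_comm]

lemma bQ_transpose (hs : s * s = 1) (t : Fin (h * h)) : (bQ h s t)ᵀ = s • bQ h s t := by
  unfold bQ
  rw [Matrix.transpose_submatrix, blkQ_transpose hs]
  rfl

lemma bQ_indep : LinearIndependent ℂ (bQ h s) := by
  classical
  have h1 : LinearIndependent ℂ (fun p : Fin h × Fin h => blkQ s p) := by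
    rw [Fintype.linearIndependent_iff]
    intro g hg p
    by_cases hp : p.1 ≤ p.2
    · have h1 := congrFun (congrFun hg (Sum.inl p.1)) (Sum.inr p.2)
      simp only [Matrix.sum_apply, Matrix.smul_apply, smul_eq_mul, Matrix.zero_apply] at h1
      rw [Finset.sum_eq_single p] at h1
      · simpa [blkQ, hp] using h1
      · intro p' _ hne
        unfold blkQ
        split_ifs with hp'
        · have : ¬ (p'.1 = p.1 ∧ p'.2 = p.2) := fun h => hne (Prod.ext h.1 h.2)
          rw [Matrix.fromBlocks_apply₁₂, Matrix.single_apply, if_neg this, mul_zero]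
        · simp
      · simp
    · have h1 := congrFun (congrFun hg (Sum.inl p.1)) (Sum.inl p.2)
      simp only [Matrix.sum_apply, Matrix.smul_apply, smul_eq_mul, Matrix.zero_apply] at h1
      rw [Finset.sum_eq_single p] at h1
      · have hne : ¬ (p.2 = p.1 ∧ p.1 = p.2) := fun h => hp h.2.le
        simpa [blkQ, hp, Matrix.single_apply, hne] using h1
      · intro p' _ hne
        unfold blkQ
        split_ifs with hp'
        · simp
        · have e1 : ¬ (p'.1 = p.1 ∧ p'.2 = p.2) := fun h => hne (Prod.ext h.1 h.2)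
          have e2 : ¬ (p'.2 = p.1 ∧ p'.1 = p.2) := by
            rintro ⟨h1, h2⟩
            rw [h1, h2] at hp'
            exact hp' (le_of_lt (not_le.mp hp))
          rw [Matrix.fromBlocks_apply₁₁, Matrix.add_apply, Matrix.smul_apply,
            Matrix.single_apply, Matrix.single_apply, if_neg e1, if_neg e2]
          simp
      · simp
  have h2 : LinearIndependent ℂ (fun t : Fin (h * h) => blkQ s (finProdFinEquiv.symm t)) :=
    h1.comp _ finProdFinEquiv.symm.injective
  let R : Matrix (Fin h ⊕ Fin h) (Fin h ⊕ Fin h) ℂ ≃ₗ[ℂ] Mt (h + h) :=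
    Matrix.reindexLinearEquiv ℂ ℂ finSumFinEquiv finSumFinEquiv
  exact h2.map' R.toLinearMap (LinearEquiv.ker R)

lemma genK_apply {n m : ℕ} (b : Fin m → Mt n) (i j : Fin n) : genK 0 b i j =
    ∑ t, xv t * algebraMap ℂ (RF m) (b t i j) := by
  simp only [genK, genP, Matrix.map_apply, Matrix.add_apply, Matrix.zero_apply, map_zero,
      zero_add, Matrix.sum_apply, Matrix.smul_apply, smul_eq_mul, map_sum, map_mul]
  refine Finset.sum_congr rfl fun o _ => ?_
  have e1 : ∀ c : ℂ, algebraMap (Pl m) (RF m) (C c) =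
        algebraMap ℂ (RF m) c := fun c =>
      (IsScalarTower.algebraMap_apply ℂ (Pl m) (RF m) c).symm
  rw [e1]
  rfl

lemma genK_Q (i j : Fin h ⊕ Fin h) : genK 0 (bQ h s) (finSumFinEquiv i) (finSumFinEquiv j) =
    ∑ p : Fin h × Fin h, xv (finProdFinEquiv p) * algebraMap ℂ (RF (h * h)) (blkQ s p i j) := by
  rw [genK_apply, ← Equiv.sum_comp finProdFinEquiv]
  refine Finset.sum_congr rfl fun p _ => ?_
  simp [bQ]

/-- The triangular block. -/
noncomputable def TQ (h : ℕ) : Matrix (Fin h) (Fin h) (RF (h * h)) :=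
  fun i j => if i ≤ j then xv (finProdFinEquiv (i, j)) else 0

lemma genK_Q12 (i j : Fin h) :
    genK 0 (bQ h s) (finSumFinEquiv (Sum.inl i)) (finSumFinEquiv (Sum.inr j)) = TQ h i j := by
  rw [genK_Q, Finset.sum_eq_single (i, j)]
  · unfold TQ blkQ
    by_cases hij : i ≤ j
    · simp [hij]
    · simp [hij]
  · intro p _ hne
    unfold blkQ
    split_ifs with hp
    · have : ¬ (p.1 = i ∧ p.2 = j) := fun h => hne (Prod.ext h.1 h.2)
      rw [Matrix.fromBlocks_apply₁₂, Matrix.single_apply, if_neg this, map_zero, mul_zero]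
    · simp
  · simp

lemma genK_Q21 (i j : Fin h) :
    genK 0 (bQ h s) (finSumFinEquiv (Sum.inr i)) (finSumFinEquiv (Sum.inl j)) =
      algebraMap ℂ (RF (h * h)) s * TQ h j i := by
  rw [genK_Q, Finset.sum_eq_single (j, i)]
  · unfold TQ blkQ
    by_cases hij : j ≤ i
    · simp [hij, mul_comm]
    · simp [hij]
  · intro p _ hne
    unfold blkQ
    split_ifs with hp
    · have : ¬ (p.2 = i ∧ p.1 = j) := fun h => hne (Prod.ext h.2 h.1)
      rw [Matrix.fromBlocks_apply₂₁, Matrix.smul_apply, Matrix.single_apply, if_neg this]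
      simp
    · simp
  · simp

lemma genK_Q22 (i j : Fin h) :
    genK 0 (bQ h s) (finSumFinEquiv (Sum.inr i)) (finSumFinEquiv (Sum.inr j)) = 0 := by
  rw [genK_Q]
  refine Finset.sum_eq_zero fun p _ => ?_
  unfold blkQ
  split_ifs <;> simp

lemma det_TQ : (TQ h).det = ∏ i : Fin h, xv (finProdFinEquiv (i, i)) := by
  rw [Matrix.det_of_isUpperTriangular]
  · refine Finset.prod_congr rfl fun i _ => ?_
    simp [TQ]
  · intro i j hij
    have hij' : ¬ i ≤ j := not_le.mpr hij
    unfold TQ
    rw [if_neg hij']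

/-- The determinant is a constant times the square of the product of the diagonal entries. -/
lemma det_Q (hs : s * s = 1) : ∃ c : ℂ, c ≠ 0 ∧ (genK 0 (bQ h s)).det =
    algebraMap ℂ (RF (h * h)) c * (∏ i : Fin h, xv (finProdFinEquiv (i, i))) ^ 2 := by
  classical
  set a := algebraMap ℂ (RF (h * h)) with ha
  set N : Matrix (Fin h ⊕ Fin h) (Fin h ⊕ Fin h) (RF (h * h)) :=
    (genK 0 (bQ h s)).submatrix finSumFinEquiv finSumFinEquiv with hN
  have hdet : N.det = (genK 0 (bQ h s)).det := Matrix.det_submatrix_equiv_self _ _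
  have hb : N = Matrix.fromBlocks N.toBlocks₁₁ (TQ h) (a s • (TQ h)ᵀ) 0 := by
    conv_lhs => rw [← Matrix.fromBlocks_toBlocks N]
    congr 1
    · ext i j
      exact genK_Q12 i j
    · ext i j
      rw [Matrix.smul_apply, Matrix.transpose_apply, smul_eq_mul]
      exact genK_Q21 i j
    · ext i j
      exact genK_Q22 i j
  -- the swap of the blocks
  set J : Matrix (Fin h ⊕ Fin h) (Fin h ⊕ Fin h) ℂ := Matrix.fromBlocks 0 1 1 0 with hJ
  have hJJ : J * J = 1 := by
    rw [hJ, Matrix.fromBlocks_multiply]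
    simp
  have hJd : J.det * J.det = 1 := by rw [← Matrix.det_mul, hJJ, Matrix.det_one]
  have hJm : J.map a = Matrix.fromBlocks 0 1 1 0 := by
    rw [hJ, Matrix.fromBlocks_map]
    simp
  have hprod : N * J.map a = Matrix.fromBlocks (TQ h) N.toBlocks₁₁ 0 (a s • (TQ h)ᵀ) := by
    conv_lhs => rw [hb]
    rw [hJm, Matrix.fromBlocks_multiply]
    simp
  have h1 := congrArg Matrix.det hprod
  rw [Matrix.det_mul, Matrix.det_fromBlocks_zero₂₁, Matrix.det_smul, Matrix.det_transpose,
    Fintype.card_fin] at h1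
  have h2 : (J.map a).det = a J.det := by
    rw [RingHom.map_det]; rfl
  have hs0 : s ≠ 0 := left_ne_zero_of_mul_eq_one hs
  have hJ0 : J.det ≠ 0 := left_ne_zero_of_mul_eq_one hJd
  refine ⟨s ^ h * J.det, mul_ne_zero (pow_ne_zero _ hs0) hJ0, ?_⟩
  rw [← hdet, ← det_TQ]
  have h3 : a J.det * a J.det = 1 := by rw [← map_mul, hJd, map_one]
  rw [h2] at h1
  rw [map_mul, map_pow]
  calc N.det = N.det * a J.det * a J.det := by rw [mul_assoc, h3, mul_one]
    _ = _ := by rw [h1]; ring

lemma Q_det_ne (hs : s * s = 1) : (genP 0 (bQ h s)).det ≠ 0 := by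
  intro h0
  obtain ⟨c, hc, h1⟩ := det_Q (h := h) hs
  rw [det_genK, h0, map_zero] at h1
  have hinj : Function.Injective (algebraMap ℂ (RF (h * h))) := (algebraMap ℂ (RF (h * h))).injective
  have h2 : algebraMap ℂ (RF (h * h)) c ≠ 0 := fun h => hc (hinj (by rw [h, map_zero]))
  exact (mul_ne_zero h2 (pow_ne_zero 2 (Finset.prod_ne_zero_iff.mpr fun i _ => xv_ne_zero _))) h1.symm

/-- The determinant takes `h + 1` multiplications. -/
lemma slp_Q (hs : s * s = 1) (hh : 1 ≤ h) :
    SLPComputes (xv (m := h * h)) (h + 1) {(genK 0 (bQ h s)).det} := by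
  classical
  obtain ⟨c, hc, hdet⟩ := det_Q (h := h) hs
  let d : ℕ → RF (h * h) := fun l => if hl : l < h then
    xv (finProdFinEquiv ((⟨l, hl⟩ : Fin h), (⟨l, hl⟩ : Fin h))) else 1
  let g : ℕ → RF (h * h) := fun l => if l < h then ∏ k ∈ Finset.range (l + 1), d k
    else (∏ k ∈ Finset.range h, d k) ^ 2
  have hg : ∀ l, l < h → g l = ∏ k ∈ Finset.range (l + 1), d k := fun l hl => if_pos hl
  have hg' : g h = (∏ k ∈ Finset.range h, d k) ^ 2 := if_neg (lt_irrefl h)
  refine ⟨g, ?_, ?_⟩
  · intro l hl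
    by_cases hlh : l < h
    · have hd : d l ∈ affS (xv (m := h * h)) g l := by
        have : d l = xv (finProdFinEquiv ((⟨l, hlh⟩ : Fin h), (⟨l, hlh⟩ : Fin h))) := dif_pos hlh
        rw [this]
        exact Submodule.subset_span (Or.inl (Or.inr ⟨_, rfl⟩))
      rcases Nat.eq_zero_or_pos l with h0 | h0
      · subst h0
        refine ⟨1, Submodule.subset_span (Or.inl (Or.inl rfl)), d 0, hd, Or.inl ?_⟩
        rw [hg 0 hlh]
        simp
      · refine ⟨g (l - 1), Submodule.subset_span (Or.inr ⟨l - 1, by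
          show l - 1 < l
          omega, rfl⟩), d l, hd, Or.inl ?_⟩
        rw [hg l hlh, hg (l - 1) (by omega), show l - 1 + 1 = l by omega, Finset.prod_range_succ]
    · have hlh' : l = h := by omega
      subst hlh'
      have hm : g (l - 1) ∈ affS (xv (m := l * l)) g l := Submodule.subset_span
        (Or.inr ⟨l - 1, by
          show l - 1 < l
          omega, rfl⟩)
      refine ⟨g (l - 1), hm, g (l - 1), hm, Or.inl ?_⟩
      rw [hg', hg (l - 1) (by omega), show l - 1 + 1 = l by omega, sq]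
  · rintro f rfl
    have h1 : (genK 0 (bQ h s)).det = c • g h := by
      rw [hdet, hg', Algebra.smul_def]
      congr 2
      rw [Finset.prod_range]
      refine Finset.prod_congr rfl fun i _ => ?_
      have h2 : d (i : ℕ) = xv (finProdFinEquiv ((⟨(i : ℕ), i.2⟩ : Fin h), (⟨(i : ℕ), i.2⟩ : Fin h))) :=
        dif_pos i.2
      exact h2.symm
    rw [h1]
    exact Submodule.smul_mem _ _ (Submodule.subset_span (Or.inr ⟨h, by
      show h < h + 1
      omega, rfl⟩))

end Pool.Agent.TH711
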