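import Pool.Agent.H53R3.Bounds

/-!
# Weights of a torus of the orthogonal group
-/

namespace Pool.Agent.TH711

open Pool.Agent.H53R3 Finset

/-- A number with balanced digits determines its digits. -/
lemma digits_zero : ∀ (n : ℕ) (c : ℕ → ℤ), (∀ a, |c a| ≤ 4) →
    ∑ a ∈ range n, c a * 5 ^ a = 0 → ∀ a < n, c a = 0 := by
  intro n
  induction n with
  | zero => intro c _ _ a ha; omega
  | succ n ih =>
    intro c hc h a ha
    rw [Finset.sum_range_succ'] at h
    have h1 : ∑ k ∈ range n, c (k + 1) * 5 ^ (k + 1) = 5 * ∑ k ∈ range n, c (k + 1) * 5 ^ k := by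
      rw [Finset.mul_sum]
      exact Finset.sum_congr rfl fun k _ => by ring
    rw [h1] at h
    have h0 : c 0 = 0 := by
      have := abs_le.mp (hc 0)
      simp at h
      omega
    rcases a with _ | a
    · exact h0
    · refine ih (fun k => c (k + 1)) (fun k => hc (k + 1)) ?_ a (by omega)
      rw [h0] at h
      simp at h
      exact h

/-- The sign of an index. -/
def sg {n : ℕ} (i : Fin n) : ℤ :=
  if (i : ℕ) < n / 2 then -1 else if n - n / 2 ≤ (i : ℕ) then 1 else 0

/-- The absolute value of an index. -/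
def fo {n : ℕ} (i : Fin n) : ℕ := if (i : ℕ) < n / 2 then i else n - 1 - i

/-- A weight. -/
def tw {n : ℕ} (i : Fin n) : ℤ := sg i * 5 ^ (fo i)

lemma sg_cases {n : ℕ} (i : Fin n) : sg i = -1 ∨ sg i = 0 ∨ sg i = 1 := by
  unfold sg; split_ifs <;> simp

lemma fo_lt {n : ℕ} (i : Fin n) : fo i < n := by
  have := i.2
  unfold fo; split_ifs <;> omega

lemma sg_rev {n : ℕ} (i : Fin n) : sg (Fin.rev i) = - sg i := by
  have := i.2
  unfold sg
  rw [Fin.val_rev]
  split_ifs <;> omega

lemma fo_rev {n : ℕ} (i : Fin n) (h : sg i ≠ 0) : fo (Fin.rev i) = fo i := by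
  have := i.2
  unfold sg at h
  unfold fo
  rw [Fin.val_rev]
  split_ifs at h ⊢ <;> omega

lemma tw_rev {n : ℕ} (i : Fin n) : tw (Fin.rev i) = - tw i := by
  unfold tw
  rw [sg_rev]
  by_cases h : sg i = 0
  · rw [h]; simp
  · rw [fo_rev i h]; ring

lemma rev_of_sg_zero {n : ℕ} (i : Fin n) (h : sg i = 0) : Fin.rev i = i := by
  have := i.2
  unfold sg at h
  apply Fin.ext
  rw [Fin.val_rev]
  split_ifs at h <;> omega

lemma eq_of_sg_fo {n : ℕ} {i j : Fin n} (h : sg i = sg j) (h' : fo i = fo j) (h0 : sg i ≠ 0) :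
    i = j := by
  have := i.2
  have := j.2
  unfold sg at h h0
  unfold fo at h'
  apply Fin.ext
  split_ifs at h h' h0 <;> omega

lemma eq_of_sg_zero {n : ℕ} {i j : Fin n} (h : sg i = 0) (h' : sg j = 0) : i = j := by
  have := i.2
  have := j.2
  unfold sg at h h'
  apply Fin.ext
  split_ifs at h h' <;> omega

/-- One digit. -/
def dg {n : ℕ} (i : Fin n) (a : ℕ) : ℤ := if a = fo i then sg i else 0

lemma tw_eq_sum {n : ℕ} (i : Fin n) : tw i = ∑ a ∈ range n, dg i a * 5 ^ a := by
  unfold tw dg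
  rw [Finset.sum_eq_single (fo i)]
  · simp
  · intro a _ h; simp [h]
  · intro h; exact absurd (Finset.mem_range.mpr (fo_lt i)) h

lemma dg_cases {n : ℕ} (i : Fin n) (a : ℕ) : dg i a = -1 ∨ dg i a = 0 ∨ dg i a = 1 := by
  unfold dg
  have := sg_cases i
  split_ifs
  · exact this
  · simp

lemma eq_rev_of_dg {n : ℕ} {i j : Fin n} (h0 : sg j ≠ 0) (h : dg i (fo j) = - sg j) :
    j = Fin.rev i := by
  unfold dg at h
  split_ifs at h with hf
  · have hi : sg i ≠ 0 := by rw [h]; exact neg_ne_zero.mpr h0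
    exact eq_of_sg_fo (by rw [sg_rev, h, neg_neg]) (by rw [fo_rev i hi, hf]) h0
  · exact absurd (neg_eq_zero.mp h.symm) h0

lemma tw_odd {n : ℕ} (i : Fin n) (h : sg i ≠ 0) : tw i % 2 = 1 := by
  unfold tw
  have h5 : (5 : ℤ) ^ (fo i) % 2 = 1 := by
    have h : Odd ((5 : ℤ) ^ (fo i)) := Odd.pow (by decide)
    exact Int.odd_iff.mp h
  rcases sg_cases i with h1 | h1 | h1
  · rw [h1]; omega
  · exact absurd h1 h
  · rw [h1]; omega

lemma tw_zero {n : ℕ} (i : Fin n) (h : sg i = 0) : tw i = 0 := by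
  unfold tw; rw [h, zero_mul]

/-- Four weights with sum zero. -/
lemma four_weights {n : ℕ} (j k c d : Fin n) (h : tw j + tw k + tw c + tw d = 0) :
    j = Fin.rev k ∨ j = Fin.rev c ∨ j = Fin.rev d := by
  by_cases hj : sg j = 0
  · have hj0 := tw_zero j hj
    by_cases hk : sg k = 0
    · left; rw [rev_of_sg_zero k hk]; exact eq_of_sg_zero hj hk
    by_cases hc : sg c = 0
    · right; left; rw [rev_of_sg_zero c hc]; exact eq_of_sg_zero hj hc
    by_cases hd : sg d = 0
    · right; right; rw [rev_of_sg_zero d hd]; exact eq_of_sg_zero hj hd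
    exfalso
    have h1 := tw_odd k hk
    have h2 := tw_odd c hc
    have h3 := tw_odd d hd
    omega
  · have h1 : ∀ a < n, dg j a + dg k a + dg c a + dg d a = 0 := by
      refine digits_zero n (fun a => dg j a + dg k a + dg c a + dg d a) ?_ ?_
      · intro a
        have e1 := dg_cases j a
        have e2 := dg_cases k a
        have e3 := dg_cases c a
        have e4 := dg_cases d a
        rw [abs_le]
        omega
      · rw [tw_eq_sum, tw_eq_sum, tw_eq_sum, tw_eq_sum, ← Finset.sum_add_distrib,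
          ← Finset.sum_add_distrib, ← Finset.sum_add_distrib] at h
        rw [← h]
        exact Finset.sum_congr rfl fun a _ => by ring
    have h2 := h1 (fo j) (fo_lt j)
    have h3 : dg j (fo j) = sg j := by simp [dg]
    rw [h3] at h2
    have e1 := sg_cases j
    have e2 := dg_cases k (fo j)
    have e3 := dg_cases c (fo j)
    have e4 := dg_cases d (fo j)
    have : dg k (fo j) = - sg j ∨ dg c (fo j) = - sg j ∨ dg d (fo j) = - sg j := by omega
    rcases this with h4 | h4 | h4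
    · left; exact eq_rev_of_dg hj h4
    · right; left; exact eq_rev_of_dg hj h4
    · right; right; exact eq_rev_of_dg hj h4

lemma tw_inj {n : ℕ} {i j : Fin n} (h : tw i = tw j) : i = j := by
  have h1 : tw i + tw i + tw (Fin.rev j) + tw (Fin.rev j) = 0 := by
    rw [tw_rev]; omega
  rcases four_weights _ _ _ _ h1 with h2 | h2 | h2
  · have h3 : tw i = - tw i := by conv_lhs => rw [h2, tw_rev]
    have h4 : tw i = 0 := by omega
    have h5 : sg i = 0 := by
      unfold tw at h4
      exact (mul_eq_zero.mp h4).resolve_right (by positivity)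
    have h6 : sg j = 0 := by
      rw [h4] at h
      unfold tw at h
      exact (mul_eq_zero.mp h.symm).resolve_right (by positivity)
    exact eq_of_sg_zero h5 h6
  · rw [Fin.rev_rev] at h2; exact h2
  · rw [Fin.rev_rev] at h2; exact h2

/-- Natural weights. -/
def mw (n : ℕ) (i : Fin n) : ℕ := (5 ^ n + tw i).toNat

lemma tw_abs {n : ℕ} (i : Fin n) : |tw i| ≤ 5 ^ n := by
  unfold tw
  have h1 : (5 : ℤ) ^ (fo i) ≤ 5 ^ n := pow_le_pow_right₀ (by norm_num) (fo_lt i).le
  have h2 : (0 : ℤ) < 5 ^ (fo i) := by positivity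
  rcases sg_cases i with h | h | h <;> rw [h] <;> rw [abs_le] <;> constructor <;> linarith

lemma mw_cast {n : ℕ} (i : Fin n) : (mw n i : ℤ) = 5 ^ n + tw i := by
  unfold mw
  have := abs_le.mp (tw_abs i)
  exact Int.toNat_of_nonneg (by linarith)

lemma mw_le {n : ℕ} (i : Fin n) : mw n i ≤ 2 * 5 ^ n := by
  have h := mw_cast i
  have := abs_le.mp (tw_abs i)
  have h2 : (mw n i : ℤ) ≤ ((2 * 5 ^ n : ℕ) : ℤ) := by push_cast; linarith
  exact_mod_cast h2

/-- The mirror image of a position. -/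
def mir' {n : ℕ} (σ : Fin n × Fin n) : Fin n × Fin n := (Fin.rev σ.2, Fin.rev σ.1)

lemma mir'_mir' {n : ℕ} (σ : Fin n × Fin n) : mir' (mir' σ) = σ := by
  simp [mir']

/-- The exponents. -/
def mex {n : ℕ} (σ : Fin n × Fin n) : ℕ := ex (mw n) (2 * 5 ^ n) σ

lemma mex_cast {n : ℕ} (σ : Fin n × Fin n) : (mex σ : ℤ) = 2 * 5 ^ n + tw σ.2 - tw σ.1 := by
  unfold mex ex
  have h1 := mw_cast σ.1
  have h2 := mw_cast σ.2
  have h3 := mw_le σ.1
  rw [Nat.cast_sub (by omega)]
  push_cast
  rw [h1, h2]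
  ring

lemma mex_mir' {n : ℕ} (σ : Fin n × Fin n) : mex (mir' σ) = mex σ := by
  have h1 := mex_cast σ
  have h2 := mex_cast (mir' σ)
  simp only [mir', tw_rev] at h2
  have : (mex (mir' σ) : ℤ) = mex σ := by
    rw [h1]
    simp only [mir']
    rw [h2]
    ring
  exact_mod_cast this

lemma mex_inj {n : ℕ} {σ τ : Fin n × Fin n} (hσ : σ.1 ≠ σ.2) (h : mex σ = mex τ) :
    τ = σ ∨ τ = mir' σ := by
  have h1 := mex_cast σ
  have h2 := mex_cast τ
  have h0 : (mex σ : ℤ) = mex τ := by exact_mod_cast h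
  have h3 : tw σ.2 + tw τ.1 + tw (Fin.rev τ.2) + tw (Fin.rev σ.1) = 0 := by
    rw [tw_rev, tw_rev]; omega
  rcases four_weights _ _ _ _ h3 with h4 | h4 | h4
  · right
    have h5 : tw σ.1 = tw (Fin.rev τ.2) := by
      have : tw σ.2 = - tw τ.1 := by rw [h4, tw_rev]
      rw [tw_rev] at h3 ⊢
      rw [tw_rev] at h3
      omega
    have h6 := tw_inj h5
    unfold mir'
    apply Prod.ext
    · simp only; rw [h4, Fin.rev_rev]
    · simp only; rw [h6, Fin.rev_rev]
  · left
    rw [Fin.rev_rev] at h4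
    have h5 : tw σ.1 = tw τ.1 := by
      rw [h4, tw_rev, tw_rev] at h3
      omega
    exact Prod.ext (tw_inj h5).symm h4.symm
  · exfalso
    rw [Fin.rev_rev] at h4
    exact hσ h4.symm

end Pool.Agent.TH711
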